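import Pool.Agent.W913.HC.BoolChain

namespace Pool.Agent.W913.HC

open Cardinal Set Order

universe u

/-- `F` is represented as a set of functions `Λ → β`, ordered by first differences -/
structure Rep {Λ : Type u} [LinearOrder Λ] {F : Type u} [LinearOrder F] {β : Type*}
    [LinearOrder β] (fn : F → Λ → β) : Prop where
  inj : Function.Injective fn
  lt_iff : ∀ x y, x < y ↔ ∃ i, (∀ j < i, fn x j = fn y j) ∧ fn x i < fn y i

section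

variable {Λ : Type u} [LinearOrder Λ] [WellFoundedLT Λ] {F : Type u} [LinearOrder F] {β : Type*}
  [LinearOrder β] {fn : F → Λ → β}

omit [WellFoundedLT Λ] in
theorem Rep.lt_of_lt_of_le (R : Rep fn) {x y : F} {i : Λ} (h : ∀ j < i, fn x j = fn y j)
    (hlt : fn x i < fn y i) : x < y := (R.lt_iff x y).mpr ⟨i, h, hlt⟩

theorem Rep.exists_first (R : Rep fn) {x y : F} (h : x ≠ y) :
    ∃ i, (∀ j < i, fn x j = fn y j) ∧ fn x i ≠ fn y i :=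
  HC.exists_first (fun hh => h (R.inj hh))

omit [WellFoundedLT Λ] in
theorem Rep.first_lt (R : Rep fn) {x y : F} (hlt : x < y) {i : Λ} (h : ∀ j < i, fn x j = fn y j)
    (hne : fn x i ≠ fn y i) : fn x i < fn y i := by
  rcases lt_or_gt_of_ne hne with h1 | h1
  · exact h1
  · exact absurd (R.lt_of_lt_of_le (fun j hj => (h j hj).symm) h1) (not_lt.mpr hlt.le)

theorem exists_first_le {f g : Λ → β} {ξ : Λ} (h : ¬ ∀ η ≤ ξ, f η = g η) :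
    ∃ i ≤ ξ, (∀ j < i, f j = g j) ∧ f i ≠ g i := by
  push Not at h
  obtain ⟨j₀, hj₀, hne⟩ := h
  obtain ⟨i, hi, hi'⟩ := HC.exists_first (f := f) (g := g) (fun h => hne (by rw [h]))
  refine ⟨i, ?_, hi, hi'⟩
  by_contra hle
  exact hne (hi j₀ (hj₀.trans_lt (not_le.mp hle)))

theorem exists_first_lt {f g : Λ → β} {ξ : Λ} (h : ¬ ∀ η < ξ, f η = g η) :
    ∃ i < ξ, (∀ j < i, f j = g j) ∧ f i ≠ g i := by
  push Not at h
  obtain ⟨j₀, hj₀, hne⟩ := h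
  obtain ⟨i, hi, hi'⟩ := HC.exists_first (f := f) (g := g) (fun h => hne (by rw [h]))
  refine ⟨i, ?_, hi, hi'⟩
  by_contra hle
  exact hne (hi j₀ (hj₀.trans_le (not_lt.mp hle)))

theorem Rep.agree_unique (R : Rep fn) {a b a' b' : F} (hab' : a < b') (ha'b : a' < b) {ξ : Λ}
    (h : ∀ η ≤ ξ, fn a η = fn b η) (h' : ∀ η ≤ ξ, fn a' η = fn b' η) :
    ∀ η ≤ ξ, fn a η = fn a' η := by
  by_contra hcon
  obtain ⟨i, hiξ, hi, hi'⟩ := exists_first_le hcon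
  rcases lt_or_gt_of_ne hi' with hlt | hlt
  · refine absurd ha'b (not_lt.mpr (le_of_lt (R.lt_of_lt_of_le (i := i) ?_ ?_)))
    · intro j hj
      rw [← h j (hj.le.trans hiξ), hi j hj]
    · rw [← h i hiξ]
      exact hlt
  · refine absurd hab' (not_lt.mpr (le_of_lt (R.lt_of_lt_of_le (i := i) ?_ ?_)))
    · intro j hj
      rw [← h' j (hj.le.trans hiξ), hi j hj]
    · rw [← h' i hiξ]
      exact hlt

/-- the data of the common path of a cut -/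
structure Path (fn : F → Λ → β) (A B : Set F) (I : Set Λ) (s : Λ → β) : Prop where
  lower : IsLowerSet I
  wa : ∀ ξ ∈ I, ∃ a ∈ A, ∀ η ≤ ξ, fn a η = s η
  wb : ∀ ξ ∈ I, ∃ b ∈ B, ∀ η ≤ ξ, fn b η = s η
  sep : ∀ ξ ∉ I, ∀ a ∈ A, ∀ b ∈ B, ¬ ∀ η ≤ ξ, fn a η = fn b η
  la : ∀ a ∈ A, ∀ ξ ∈ I, (∀ η < ξ, fn a η = s η) → fn a ξ ≤ s ξ
  lb : ∀ b ∈ B, ∀ ξ ∈ I, (∀ η < ξ, fn b η = s η) → s ξ ≤ fn b ξ

theorem Rep.exists_path (R : Rep fn) {A B : Set F} (hA : A.Nonempty)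
    (hlt : ∀ a ∈ A, ∀ b ∈ B, a < b) : ∃ I s, Path fn A B I s := by
  classical
  obtain ⟨a0, ha0⟩ := hA
  set I : Set Λ := {ξ | ∃ a ∈ A, ∃ b ∈ B, ∀ η ≤ ξ, fn a η = fn b η} with hI
  have hlower : IsLowerSet I := by
    rintro ξ η hη ⟨a, ha, b, hb, hab⟩
    exact ⟨a, ha, b, hb, fun j hj => hab j (hj.trans hη)⟩
  have hw : ∀ ξ : I, ∃ p : F × F, p.1 ∈ A ∧ p.2 ∈ B ∧ ∀ η ≤ ξ.1, fn p.1 η = fn p.2 η := by
    rintro ⟨ξ, a, ha, b, hb, hab⟩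
    exact ⟨(a, b), ha, hb, hab⟩
  choose w hwA hwB hwab using hw
  set s : Λ → β := fun ξ => if h : ξ ∈ I then fn (w ⟨ξ, h⟩).1 ξ else fn a0 ξ with hs
  have hsval : ∀ a ∈ A, ∀ b ∈ B, ∀ ξ, (∀ η ≤ ξ, fn a η = fn b η) → ∀ η ≤ ξ, fn a η = s η := by
    intro a ha b hb ξ hab η hη
    have hηI : η ∈ I := ⟨a, ha, b, hb, fun j hj => hab j (hj.trans hη)⟩
    have h1 := R.agree_unique (ξ := η) (hlt a ha _ (hwB ⟨η, hηI⟩))
      (hlt _ (hwA ⟨η, hηI⟩) b hb) (fun j hj => hab j (hj.trans hη)) (hwab ⟨η, hηI⟩) η le_rfl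
    rw [h1, hs]
    simp only [dif_pos hηI]
  have hwa : ∀ ξ : I, ∀ η ≤ ξ.1, fn (w ξ).1 η = s η := fun ξ =>
    hsval _ (hwA ξ) _ (hwB ξ) ξ.1 (hwab ξ)
  have hwb : ∀ ξ : I, ∀ η ≤ ξ.1, fn (w ξ).2 η = s η := fun ξ η hη => by
    rw [← hwab ξ η hη, hwa ξ η hη]
  refine ⟨I, s, hlower, ?_, ?_, ?_, ?_, ?_⟩
  · exact fun ξ hξ => ⟨_, hwA ⟨ξ, hξ⟩, hwa ⟨ξ, hξ⟩⟩
  · exact fun ξ hξ => ⟨_, hwB ⟨ξ, hξ⟩, hwb ⟨ξ, hξ⟩⟩
  · exact fun ξ hξ a ha b hb hab => hξ ⟨a, ha, b, hb, hab⟩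
  · intro a ha ξ hξ hag
    by_contra hcon
    rw [not_le] at hcon
    refine absurd (hlt a ha _ (hwB ⟨ξ, hξ⟩)) (not_lt.mpr (le_of_lt
      (R.lt_of_lt_of_le (i := ξ) ?_ ?_)))
    · intro j hj
      rw [hwb ⟨ξ, hξ⟩ j hj.le, hag j hj]
    · rw [hwb ⟨ξ, hξ⟩ ξ le_rfl]
      exact hcon
  · intro b hb ξ hξ hag
    by_contra hcon
    rw [not_le] at hcon
    refine absurd (hlt _ (hwA ⟨ξ, hξ⟩) b hb) (not_lt.mpr (le_of_lt
      (R.lt_of_lt_of_le (i := ξ) ?_ ?_)))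
    · intro j hj
      rw [hwa ⟨ξ, hξ⟩ j hj.le, hag j hj]
    · rw [hwa ⟨ξ, hξ⟩ ξ le_rfl]
      exact hcon

/-- if the path is defined everywhere the left part has the cofinality of the index -/
theorem Rep.cof_full (R : Rep fn) [NoMaxOrder Λ] {A B : Set F} {s : Λ → β}
    (P : Path fn A B univ s) (hmax : ∀ a ∈ A, ∃ a' ∈ A, a < a') :
    Order.cof A = Order.cof Λ := by
  have hne : ∀ a ∈ A, fn a ≠ s := by
    intro a ha h
    obtain ⟨a', ha', hlt⟩ := hmax a ha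
    obtain ⟨i, hi1, hi2⟩ := R.exists_first hlt.ne
    have h1 := R.first_lt hlt hi1 hi2
    have h2 := P.la a' ha' i trivial (fun j hj => by rw [← hi1 j hj, h])
    rw [h] at h1
    exact absurd h1 (not_lt.mpr h2)
  have hρ : ∀ x : A, ∃ i : Λ, (∀ j < i, fn x.1 j = s j) ∧ fn x.1 i < s i := by
    intro x
    obtain ⟨i, hi1, hi2⟩ := HC.exists_first (hne x.1 x.2)
    exact ⟨i, hi1, lt_of_le_of_ne (P.la x.1 x.2 i trivial hi1) hi2⟩
  choose ρ hρ1 hρ2 using hρ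
  choose w hwA hw using fun i => P.wa i trivial
  refine cof_eq_of_maps (fun i => exists_gt i) ρ (fun i => ⟨w i, hwA i⟩) ?_
  intro x i hi
  refine R.lt_of_lt_of_le (i := ρ x) ?_ ?_
  · intro j hj
    rw [hρ1 x j hj, hw i j (hj.trans hi).le]
  · rw [hw i _ hi.le]
    exact hρ2 x

/-- elements of `A` off the cone lie below the cone -/
theorem Rep.below_cone (R : Rep fn) {A B : Set F} {I : Set Λ} {s : Λ → β}
    (P : Path fn A B I s) {δ : Λ} (hδ : ∀ ξ < δ, ξ ∈ I) {a : F} (ha : a ∈ A)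
    (hnot : ¬ ∀ η < δ, fn a η = s η) {x : F} (hx : ∀ η < δ, fn x η = s η) : a < x := by
  obtain ⟨i, hi, hi1, hi2⟩ := exists_first_lt hnot
  refine R.lt_of_lt_of_le (i := i) ?_ ?_
  · intro j hj
    rw [hi1 j hj, hx j (hj.trans hi)]
  · rw [hx i hi]
    exact lt_of_le_of_ne (P.la a ha i (hδ i hi) hi1) hi2

theorem Rep.above_cone (R : Rep fn) {A B : Set F} {I : Set Λ} {s : Λ → β}
    (P : Path fn A B I s) {δ : Λ} (hδ : ∀ ξ < δ, ξ ∈ I) {b : F} (hb : b ∈ B)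
    (hnot : ¬ ∀ η < δ, fn b η = s η) {x : F} (hx : ∀ η < δ, fn x η = s η) : x < b := by
  obtain ⟨i, hi, hi1, hi2⟩ := exists_first_lt hnot
  refine R.lt_of_lt_of_le (i := i) ?_ ?_
  · intro j hj
    rw [hi1 j hj, hx j (hj.trans hi)]
  · rw [hx i hi]
    exact lt_of_le_of_ne (P.lb b hb i (hδ i hi) hi1) hi2.symm

/-- if the cone misses `B`, the coinitiality of `B` is that of the level -/
theorem Rep.coinit_limit (R : Rep fn) {A B : Set F} {I : Set Λ} {s : Λ → β}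
    (P : Path fn A B I s) {δ : Λ} (hδ : ∀ ξ < δ, ξ ∈ I)
    (hB : ∀ b ∈ B, ¬ ∀ η < δ, fn b η = s η) : Order.cof (OrderDual B) = Order.cof (Iio δ) := by
  have hρ : ∀ x : OrderDual B, ∃ i : Iio δ, (∀ j < i.1, fn (OrderDual.ofDual x).1 j = s j) ∧
      s i < fn (OrderDual.ofDual x).1 i := by
    intro x
    obtain ⟨i, hi, hi1, hi2⟩ := exists_first_lt (hB _ (OrderDual.ofDual x).2)
    exact ⟨⟨i, hi⟩, hi1, lt_of_le_of_ne (P.lb _ (OrderDual.ofDual x).2 i (hδ i hi) hi1) hi2.symm⟩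
  choose ρ hρ1 hρ2 using hρ
  choose w hwB hw using fun i : Iio δ => P.wb i.1 (hδ i.1 i.2)
  refine cof_eq_of_maps ?_ ρ (fun i => OrderDual.toDual ⟨w i, hwB i⟩) ?_
  · intro i
    obtain ⟨j, hj, hj1, hj2⟩ := exists_first_lt (hB _ (hwB i))
    refine ⟨⟨j, hj⟩, ?_⟩
    show i.1 < j
    by_contra hcon
    exact hj2 (hw i j (not_lt.mp hcon))
  · intro x i hi
    show w i < (OrderDual.ofDual x).1
    refine R.lt_of_lt_of_le (i := (ρ x).1) ?_ ?_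
    · intro j hj
      rw [hρ1 x j hj, hw i j (hj.trans hi).le]
    · rw [hw i _ (le_of_lt hi)]
      exact hρ2 x

/-- cofinal subsets -/
theorem cof_subset_eq {F : Type u} [LinearOrder F] {D A : Set F} (h : D ⊆ A)
    (h' : ∀ a ∈ A, ∃ d ∈ D, a ≤ d) : Order.cof D = Order.cof A := by
  refine Order.cof_congr_of_strictMono (f := fun d : D => (⟨d.1, h d.2⟩ : A))
    (fun x y hxy => hxy) ?_
  rintro ⟨a, ha⟩
  obtain ⟨d, hd, hle⟩ := h' a ha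
  exact ⟨⟨d, h hd⟩, ⟨⟨d, hd⟩, rfl⟩, hle⟩

theorem coinit_subset_eq {F : Type u} [LinearOrder F] {D A : Set F} (h : D ⊆ A)
    (h' : ∀ a ∈ A, ∃ d ∈ D, d ≤ a) : Order.cof (OrderDual D) = Order.cof (OrderDual A) := by
  refine Order.cof_congr_of_strictMono
    (f := fun d : OrderDual D =>
      (OrderDual.toDual (⟨(OrderDual.ofDual d).1, h (OrderDual.ofDual d).2⟩ : A)))
    (fun x y hxy => hxy) ?_
  intro x
  obtain ⟨d, hd, hle⟩ := h' (OrderDual.ofDual x).1 (OrderDual.ofDual x).2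
  exact ⟨OrderDual.toDual ⟨d, h hd⟩, ⟨OrderDual.toDual ⟨d, hd⟩, rfl⟩, hle⟩

end

end Pool.Agent.W913.HC
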