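import Mathlib

/-! A homogeneous chain `K` of 0-1-functions on a regular cardinal. -/

namespace Pool.Agent.W913.HC

open Cardinal Set Order

universe u

section gen

variable {Λ : Type u} [LinearOrder Λ]

theorem cof_eq_of_maps {X I : Type u} [LinearOrder X] [LinearOrder I]
    (hI : ∀ i : I, ∃ j : I, i < j) (ρ : X → I) (a : I → X)
    (h : ∀ x i, ρ x < i → x < a i) : Order.cof X = Order.cof I := by
  apply le_antisymm
  · obtain ⟨S, hS, hS'⟩ := Order.exists_cof_eq I
    rw [← hS']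
    refine (Order.cof_le (s := a '' S) ?_).trans mk_image_le
    intro x
    obtain ⟨j, hj⟩ := hI (ρ x)
    obtain ⟨i, hi, hji⟩ := hS j
    exact ⟨a i, ⟨i, hi, rfl⟩, (h x i (hj.trans_le hji)).le⟩
  · obtain ⟨S, hS, hS'⟩ := Order.exists_cof_eq X
    rw [← hS']
    refine (Order.cof_le (s := ρ '' S) ?_).trans mk_image_le
    intro i
    obtain ⟨x, hx, hix⟩ := hS (a i)
    refine ⟨ρ x, ⟨x, hx, rfl⟩, ?_⟩
    by_contra hlt
    exact absurd (h x i (not_le.mp hlt)) (not_lt.mpr hix)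

theorem exists_first [WellFoundedLT Λ] {β : Type*} {f g : Λ → β} (h : f ≠ g) :
    ∃ i, (∀ j < i, f j = g j) ∧ f i ≠ g i := by
  have h1 : {i | f i ≠ g i}.Nonempty := Function.ne_iff.mp h
  refine ⟨wellFounded_lt.min _ h1, ?_, wellFounded_lt.min_mem _ h1⟩
  intro j hj
  by_contra hne
  exact wellFounded_lt.not_lt_min {i | f i ≠ g i} hne hj

theorem exists_min_mem [WellFoundedLT Λ] (S : Set Λ) (h : S.Nonempty) :
    ∃ i ∈ S, ∀ j < i, j ∉ S :=
  ⟨wellFounded_lt.min _ h, wellFounded_lt.min_mem _ h,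
    fun _ hj hS => wellFounded_lt.not_lt_min S hS hj⟩

theorem ioi_cofinal [NoMaxOrder Λ] (i : Λ) : IsCofinal (Ioi i) := by
  intro x
  obtain ⟨y, hy⟩ := exists_gt (max i x)
  exact ⟨y, (le_max_left _ _).trans_lt hy, ((le_max_right _ _).trans_lt hy).le⟩

variable [WellFoundedLT Λ] [IsRegularCardinalOrder Λ]

/-- the isomorphism between two cofinal subsets of a regular cardinal -/
noncomputable def isoCof {S S' : Set Λ} (hS : IsCofinal S) (hS' : IsCofinal S') : S ≃o S' :=
  (Order.enum S hS).symm.trans (Order.enum S' hS')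

end gen

section defs

variable (Λ : Type u) [LinearOrder Λ]

/-- `K`: functions `Λ → Bool` taking both values cofinally, ordered lexicographically -/
def K : Type u := {f : Lex (Λ → Bool) //
  (∀ i, ∃ j, i < j ∧ ofLex f j = true) ∧ (∀ i, ∃ j, i < j ∧ ofLex f j = false)}

variable {Λ}

noncomputable instance [WellFoundedLT Λ] : LinearOrder (K Λ) :=
  inferInstanceAs (LinearOrder {f : Lex (Λ → Bool) //
    (∀ i, ∃ j, i < j ∧ ofLex f j = true) ∧ (∀ i, ∃ j, i < j ∧ ofLex f j = false)})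

def K.fn (x : K Λ) : Λ → Bool := ofLex x.1

def Both (f : Λ → Bool) : Prop := ∀ v : Bool, ∀ i, ∃ j, i < j ∧ f j = v

def K.mk (f : Λ → Bool) (hf : Both f) : K Λ := ⟨toLex f, hf true, hf false⟩

theorem K.both (x : K Λ) : Both x.fn := by
  intro v
  cases v
  · exact x.2.2
  · exact x.2.1

@[simp] theorem K.fn_mk (f : Λ → Bool) (hf : Both f) : (K.mk f hf).fn = f := rfl

theorem K.ext {x y : K Λ} (h : x.fn = y.fn) : x = y := Subtype.ext h

variable [WellFoundedLT Λ]

theorem K.lt_iff {x y : K Λ} :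
    x < y ↔ ∃ i, (∀ j < i, x.fn j = y.fn j) ∧ x.fn i = false ∧ y.fn i = true := by
  have h : x < y ↔ ∃ i, (∀ j < i, x.fn j = y.fn j) ∧ x.fn i < y.fn i := Iff.rfl
  rw [h]
  refine exists_congr fun i => and_congr_right fun _ => ?_
  cases x.fn i <;> cases y.fn i <;> decide

/-- if `x`, `y` agree below `i` and `x i = v`, `y i = !v` then the comparison is decided by `v` -/
theorem K.lt_of_first {x y : K Λ} {i : Λ} (h : ∀ j < i, x.fn j = y.fn j) (hx : x.fn i = false)
    (hy : y.fn i = true) : x < y := K.lt_iff.mpr ⟨i, h, hx, hy⟩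

theorem K.first_of_lt {x y : K Λ} (hlt : x < y) {i : Λ} (h : ∀ j < i, x.fn j = y.fn j)
    (hne : x.fn i ≠ y.fn i) : x.fn i = false ∧ y.fn i = true := by
  obtain ⟨m, hm, hm1, hm2⟩ := K.lt_iff.mp hlt
  rcases lt_trichotomy m i with h1 | h1 | h1
  · have := h m h1
    rw [hm1, hm2] at this
    exact absurd this (by decide)
  · subst h1
    exact ⟨hm1, hm2⟩
  · exact absurd (hm i h1) hne

theorem K.exists_first {x y : K Λ} (h : x ≠ y) :
    ∃ i, (∀ j < i, x.fn j = y.fn j) ∧ x.fn i ≠ y.fn i :=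
  HC.exists_first (fun hh => h (K.ext hh))

end defs

section splice

variable {Λ : Type u} [LinearOrder Λ] {β : Type*}

open Classical in
/-- follow `c` below `p`, take the value `v` at `p` and follow `z` (transported) above `p` -/
noncomputable def splice (c : Λ → β) (p : Λ) (v : β) {q : Λ} (e : Ioi p ≃o Ioi q) (z : Λ → β) :
    Λ → β :=
  fun ξ => if h : p < ξ then z (e ⟨ξ, h⟩) else if ξ = p then v else c ξ

theorem splice_above (c : Λ → β) (p : Λ) (v : β) {q : Λ} (e : Ioi p ≃o Ioi q) (z : Λ → β)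
    {ξ : Λ} (h : p < ξ) : splice c p v e z ξ = z (e ⟨ξ, h⟩) := by
  simp [splice, h]

theorem splice_at (c : Λ → β) (p : Λ) (v : β) {q : Λ} (e : Ioi p ≃o Ioi q) (z : Λ → β) :
    splice c p v e z p = v := by
  simp [splice]

theorem splice_below (c : Λ → β) (p : Λ) (v : β) {q : Λ} (e : Ioi p ≃o Ioi q) (z : Λ → β)
    {ξ : Λ} (h : ξ < p) : splice c p v e z ξ = c ξ := by
  simp [splice, h.not_gt, h.ne]

theorem splice_both [NoMaxOrder Λ] (c : Λ → Bool) (p : Λ) (v : Bool) {q : Λ}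
    (e : Ioi p ≃o Ioi q) {z : Λ → Bool} (hz : Both z) : Both (splice c p v e z) := by
  intro w i
  obtain ⟨j0, hj0⟩ := exists_gt (max i p)
  have hp : p < j0 := (le_max_right _ _).trans_lt hj0
  obtain ⟨j', hj', hw⟩ := hz w (e ⟨j0, hp⟩)
  have hq : q < j' := lt_trans (e ⟨j0, hp⟩).2 hj'
  have h1 : (⟨j0, hp⟩ : Ioi p) < e.symm ⟨j', hq⟩ := by
    rw [OrderIso.lt_symm_apply]
    exact hj'
  refine ⟨e.symm ⟨j', hq⟩, ?_, ?_⟩
  · exact ((le_max_left _ _).trans_lt hj0).trans h1
  · have h2 : p < ((e.symm ⟨j', hq⟩ : Ioi p) : Λ) := (e.symm ⟨j', hq⟩).2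
    rw [splice_above _ _ _ _ _ h2]
    have h3 : e ⟨((e.symm ⟨j', hq⟩ : Ioi p) : Λ), h2⟩ = ⟨j', hq⟩ := e.apply_symm_apply _
    rw [h3]
    exact hw

end splice

section side

variable {Λ : Type u} [LinearOrder Λ] [WellFoundedLT Λ]

/-- points whose first difference from `a` lies above `δ` and has value `v` there -/
def Side (v : Bool) (a : K Λ) (δ : Λ) : Set (K Λ) :=
  {z | ∃ i, δ < i ∧ a.fn i = !v ∧ (∀ j < i, z.fn j = a.fn j) ∧ z.fn i = v}

def Pos (v : Bool) (a : K Λ) (δ : Λ) : Set Λ := {i | δ < i ∧ a.fn i = !v}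

omit [WellFoundedLT Λ] in
theorem pos_cofinal (v : Bool) (a : K Λ) (δ : Λ) : IsCofinal (Pos v a δ) := by
  intro x
  obtain ⟨j, hj, hv⟩ := a.both (!v) (max δ x)
  exact ⟨j, ⟨(le_max_left _ _).trans_lt hj, hv⟩, ((le_max_right _ _).trans_lt hj).le⟩

variable [IsRegularCardinalOrder Λ] [NoMaxOrder Λ]

noncomputable def tl (p q : Λ) : Ioi p ≃o Ioi q := isoCof (ioi_cofinal p) (ioi_cofinal q)

noncomputable def posIso (v : Bool) (a c : K Λ) (δ γ : Λ) : Pos v a δ ≃o Pos v c γ :=
  isoCof (pos_cofinal v a δ) (pos_cofinal v c γ)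

theorem side_iso (v : Bool) (a c : K Λ) (δ γ : Λ) : Nonempty (Side v a δ ≃o Side v c γ) := by
  classical
  have hp : ∀ z : Side v a δ, ∃ i : Pos v a δ, (∀ j < i.1, z.1.fn j = a.fn j) ∧ z.1.fn i.1 = v := by
    rintro ⟨z, i, h1, h2, h3, h4⟩
    exact ⟨⟨i, h1, h2⟩, h3, h4⟩
  choose P hP1 hP2 using hp
  let φ := posIso v a c δ γ
  let F : Side v a δ → Side v c γ := fun z =>
    ⟨K.mk (splice c.fn (φ (P z)).1 v (tl (φ (P z)).1 (P z).1) z.1.fn)
      (splice_both _ _ _ _ z.1.both), (φ (P z)).1, (φ (P z)).2.1, (φ (P z)).2.2,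
      fun j hj => by rw [K.fn_mk, splice_below _ _ _ _ _ hj], by rw [K.fn_mk, splice_at]⟩
  have hF : ∀ z, (F z).1.fn = splice c.fn (φ (P z)).1 v (tl (φ (P z)).1 (P z).1) z.1.fn :=
    fun _ => rfl
  have hmono : StrictMono F := by
    intro z z' hlt
    have hlt' : z.1 < z'.1 := hlt
    show (F z).1 < (F z').1
    rcases lt_trichotomy (P z) (P z') with h | h | h
    · have h1 : z.1.fn (P z).1 ≠ z'.1.fn (P z).1 := by
        rw [hP2 z, hP1 z' _ h, (P z).2.2]
        cases v <;> decide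
      have h2 := K.first_of_lt hlt' (i := (P z).1) (fun j hj => by
        rw [hP1 z j hj, hP1 z' j (hj.trans h)]) h1
      have hv : v = false := by rw [← hP2 z]; exact h2.1
      have h3 : (φ (P z)).1 < (φ (P z')).1 := φ.lt_iff_lt.mpr h
      refine K.lt_of_first (i := (φ (P z)).1) ?_ ?_ ?_
      · intro j hj
        rw [hF, hF, splice_below _ _ _ _ _ hj, splice_below _ _ _ _ _ (hj.trans h3)]
      · rw [hF, splice_at, hv]
      · rw [hF, splice_below _ _ _ _ _ h3, (φ (P z)).2.2, hv]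
        rfl
    · obtain ⟨m, hm, hm1, hm2⟩ := K.lt_iff.mp hlt'
      have hPm : (P z).1 < m := by
        by_contra hcon
        rcases (not_lt.mp hcon).lt_or_eq with hc | hc
        · have h5 := hP1 z m hc
          have h6 := hP1 z' m (by rw [← h]; exact hc)
          rw [hm1] at h5
          rw [hm2] at h6
          rw [← h5] at h6
          exact absurd h6 (by decide)
        · have h5 := hP2 z
          have h6 := hP2 z'
          rw [← hc] at h5
          rw [← h, ← hc] at h6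
          rw [hm1] at h5
          rw [hm2, ← h5] at h6
          exact absurd h6 (by decide)
      set e := tl (φ (P z)).1 (P z).1 with he
      have hFz' : (F z').1.fn = splice c.fn (φ (P z)).1 v e z'.1.fn := by
        rw [hF, ← h]
      set n := e.symm ⟨m, hPm⟩ with hn
      have hn1 : (φ (P z)).1 < (n : Λ) := n.2
      refine K.lt_of_first (i := (n : Λ)) ?_ ?_ ?_
      · intro j hj
        rcases lt_trichotomy j (φ (P z)).1 with h7 | h7 | h7
        · rw [hFz', hF, splice_below _ _ _ _ _ h7, splice_below _ _ _ _ _ h7]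
        · rw [hFz', hF, h7, splice_at, splice_at]
        · rw [hFz', hF, splice_above _ _ _ _ _ h7, splice_above _ _ _ _ _ h7]
          apply hm
          have h8 : (⟨j, h7⟩ : Ioi (φ (P z)).1) < e.symm ⟨m, hPm⟩ := hj
          rw [OrderIso.lt_symm_apply] at h8
          exact h8
      · rw [hF, splice_above _ _ _ _ _ hn1]
        have : e ⟨(n : Λ), hn1⟩ = ⟨m, hPm⟩ := e.apply_symm_apply _
        rw [this]
        exact hm1
      · rw [hFz', splice_above _ _ _ _ _ hn1]
        have : e ⟨(n : Λ), hn1⟩ = ⟨m, hPm⟩ := e.apply_symm_apply _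
        rw [this]
        exact hm2
    · have h1 : z.1.fn (P z').1 ≠ z'.1.fn (P z').1 := by
        rw [hP2 z', hP1 z _ h, (P z').2.2]
        cases v <;> decide
      have h2 := K.first_of_lt hlt' (i := (P z').1) (fun j hj => by
        rw [hP1 z' j hj, hP1 z j (hj.trans h)]) h1
      have hv : v = true := by rw [← hP2 z']; exact h2.2
      have h3 : (φ (P z')).1 < (φ (P z)).1 := φ.lt_iff_lt.mpr h
      refine K.lt_of_first (i := (φ (P z')).1) ?_ ?_ ?_
      · intro j hj
        rw [hF, hF, splice_below _ _ _ _ _ hj, splice_below _ _ _ _ _ (hj.trans h3)]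
      · rw [hF, splice_below _ _ _ _ _ h3, (φ (P z')).2.2, hv]
        rfl
      · rw [hF, splice_at, hv]
  have hsurj : Function.Surjective F := by
    rintro ⟨w, i0, h1, h2, h3, h4⟩
    set k : Pos v c γ := ⟨i0, h1, h2⟩ with hk
    set i := φ.symm k with hi
    have hφi : φ i = k := φ.apply_symm_apply _
    set e := tl k.1 i.1 with he
    let z : K Λ := K.mk (splice a.fn i.1 v e.symm w.fn) (splice_both _ _ _ _ w.both)
    have hz : z ∈ Side v a δ :=
      ⟨i.1, i.2.1, i.2.2, fun j hj => by rw [K.fn_mk, splice_below _ _ _ _ _ hj],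
        by rw [K.fn_mk, splice_at]⟩
    have hPz : P ⟨z, hz⟩ = i := by
      have g1 := hP1 ⟨z, hz⟩
      have g2 := hP2 ⟨z, hz⟩
      rcases lt_trichotomy (P ⟨z, hz⟩) i with h | h | h
      · exfalso
        have h5 : z.fn (P ⟨z, hz⟩).1 = a.fn (P ⟨z, hz⟩).1 := by
          have h' : (P ⟨z, hz⟩).1 < i.1 := h
          rw [K.fn_mk, splice_below _ _ _ _ _ h']
        have h6 : z.fn (P ⟨z, hz⟩).1 = v := g2
        rw [h6, (P ⟨z, hz⟩).2.2] at h5
        revert h5
        cases v <;> decide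
      · exact h
      · exfalso
        have h5 : z.fn i.1 = a.fn i.1 := g1 i.1 h
        rw [K.fn_mk, splice_at, i.2.2] at h5
        revert h5
        cases v <;> decide
    refine ⟨⟨z, hz⟩, ?_⟩
    apply Subtype.ext
    apply K.ext
    rw [hF, hPz, hφi]
    funext ξ
    rcases lt_trichotomy ξ k.1 with h | h | h
    · rw [splice_below _ _ _ _ _ h]
      exact (h3 ξ h).symm
    · rw [h, splice_at]
      exact h4.symm
    · rw [splice_above _ _ _ _ _ h]
      show z.fn (tl k.1 i.1 ⟨ξ, h⟩) = w.fn ξ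
      have h7 : i.1 < ((tl k.1 i.1 ⟨ξ, h⟩ : Ioi i.1) : Λ) := (tl k.1 i.1 ⟨ξ, h⟩).2
      rw [K.fn_mk, splice_above _ _ _ _ _ h7]
      have h8 : e.symm ⟨((tl k.1 i.1 ⟨ξ, h⟩ : Ioi i.1) : Λ), h7⟩ = ⟨ξ, h⟩ :=
        e.symm_apply_apply _
      rw [h8]
  exact ⟨hmono.orderIsoOfSurjective F hsurj⟩

theorem K.icc_iso {a b c d : K Λ} (hab : a < b) (hcd : c < d) :
    Nonempty (Icc a b ≃o Icc c d) := by
  classical
  obtain ⟨δ, hδ, hδa, hδb⟩ := K.lt_iff.mp hab
  obtain ⟨γ, hγ, hγc, hγd⟩ := K.lt_iff.mp hcd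
  obtain ⟨F1⟩ := side_iso true a c δ γ
  obtain ⟨F2⟩ := side_iso false b d δ γ
  -- elements strictly inside
  have hin : ∀ z, a < z → z < b → (z.fn δ = false → z ∈ Side true a δ) ∧
      (z.fn δ = true → z ∈ Side false b δ) := by
    intro z haz hzb
    have hag : ∀ j < δ, z.fn j = a.fn j := by
      by_contra hcon
      push Not at hcon
      obtain ⟨j0, hj0, hne⟩ := hcon
      obtain ⟨i, hi1, hi2⟩ := K.exists_first (x := a) (y := z) haz.ne
      have hi : i ≤ j0 := by
        by_contra hh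
        exact hne (hi1 j0 (not_le.mp hh)).symm
      have hlt : i < δ := hi.trans_lt hj0
      have h1 := K.first_of_lt haz hi1 hi2
      have h2 := K.first_of_lt hzb (i := i)
        (fun j hj => by rw [← hi1 j hj]; exact hδ j (hj.trans hlt))
        (by rw [← hδ i hlt]; exact hi2.symm)
      rw [h2.1] at h1
      exact absurd h1.2 (by decide)
    constructor
    · intro hz
      obtain ⟨i, hi1, hi2⟩ := K.exists_first (x := a) (y := z) haz.ne
      have h1 := K.first_of_lt haz hi1 hi2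
      refine ⟨i, ?_, h1.1, fun j hj => (hi1 j hj).symm, h1.2⟩
      rcases lt_trichotomy δ i with h | h | h
      · exact h
      · exact absurd (by rw [← h, hδa, hz]) hi2
      · exact absurd (hag i h).symm hi2
    · intro hz
      obtain ⟨i, hi1, hi2⟩ := K.exists_first (x := z) (y := b) hzb.ne
      have h1 := K.first_of_lt hzb hi1 hi2
      refine ⟨i, ?_, h1.2, hi1, h1.1⟩
      rcases lt_trichotomy δ i with h | h | h
      · exact h
      · exact absurd (by rw [← h, hδb, hz]) hi2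
      · exact absurd (by rw [hag i h, hδ i h]) hi2
  -- the values of points on the two sides
  have hs1 : ∀ {a b : K Λ} {δ : Λ}, (∀ j < δ, a.fn j = b.fn j) → a.fn δ = false → b.fn δ = true →
      ∀ z ∈ Side true a δ, a < z ∧ z < b ∧ z.fn δ = false := by
    rintro a b δ hδ hδa hδb z ⟨i, h1, h2, h3, h4⟩
    refine ⟨K.lt_of_first (fun j hj => (h3 j hj).symm) h2 h4, ?_, by rw [h3 δ h1, hδa]⟩
    exact K.lt_of_first (i := δ) (fun j hj => by rw [h3 j (hj.trans h1), hδ j hj])
      (by rw [h3 δ h1, hδa]) hδb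
  have hs2 : ∀ {a b : K Λ} {δ : Λ}, (∀ j < δ, a.fn j = b.fn j) → a.fn δ = false → b.fn δ = true →
      ∀ z ∈ Side false b δ, a < z ∧ z < b ∧ z.fn δ = true := by
    rintro a b δ hδ hδa hδb z ⟨i, h1, h2, h3, h4⟩
    refine ⟨?_, K.lt_of_first h3 h4 h2, by rw [h3 δ h1, hδb]⟩
    exact K.lt_of_first (i := δ) (fun j hj => by rw [h3 j (hj.trans h1), hδ j hj])
      hδa (by rw [h3 δ h1, hδb])
  have hcross : ∀ {a b : K Λ} {δ : Λ}, (∀ j < δ, a.fn j = b.fn j) → a.fn δ = false →
      b.fn δ = true → ∀ z ∈ Side true a δ, ∀ z' ∈ Side false b δ, z < z' := by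
    rintro a b δ hδ hδa hδb z ⟨i, h1, h2, h3, h4⟩ z' ⟨i', h1', h2', h3', h4'⟩
    exact K.lt_of_first (i := δ) (fun j hj => by
      rw [h3 j (hj.trans h1), h3' j (hj.trans h1'), hδ j hj])
      (by rw [h3 δ h1, hδa]) (by rw [h3' δ h1', hδb])
  let G : K Λ → K Λ := fun z =>
    if z = a then c else if z = b then d else
    if h : z ∈ Side true a δ then (F1 ⟨z, h⟩).1 else
    if h : z ∈ Side false b δ then (F2 ⟨z, h⟩).1 else z
  have hba : b ≠ a := hab.ne'
  have hGa : G a = c := by simp [G]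
  have hGb : G b = d := by simp [G, hba]
  have hG1 : ∀ z (h : z ∈ Side true a δ), G z = (F1 ⟨z, h⟩).1 := by
    intro z h
    obtain ⟨h1, h2, _⟩ := hs1 hδ hδa hδb z h
    simp [G, h1.ne', h2.ne, h]
  have hG2 : ∀ z (h : z ∈ Side false b δ), G z = (F2 ⟨z, h⟩).1 := by
    intro z h
    obtain ⟨h1, h2, h3⟩ := hs2 hδ hδa hδb z h
    have h4 : z ∉ Side true a δ := fun h5 => by
      have := (hs1 hδ hδa hδb z h5).2.2
      rw [h3] at this
      exact absurd this (by decide)
    simp [G, h1.ne', h2.ne, h, h4]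
  have hcase : ∀ z ∈ Icc a b, z = a ∨ z = b ∨ z ∈ Side true a δ ∨ z ∈ Side false b δ := by
    intro z hz
    rcases hz.1.eq_or_lt with h | h
    · left; exact h.symm
    rcases hz.2.eq_or_lt with h' | h'
    · right; left; exact h'
    cases hv : z.fn δ
    · exact Or.inr (Or.inr (Or.inl ((hin z h h').1 hv)))
    · exact Or.inr (Or.inr (Or.inr ((hin z h h').2 hv)))
  have hmem : ∀ z ∈ Icc a b, G z ∈ Icc c d := by
    intro z hz
    rcases hcase z hz with h | h | h | h
    · rw [h, hGa]; exact ⟨le_rfl, hcd.le⟩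
    · rw [h, hGb]; exact ⟨hcd.le, le_rfl⟩
    · rw [hG1 z h]
      obtain ⟨h1, h2, _⟩ := hs1 hγ hγc hγd _ (F1 ⟨z, h⟩).2
      exact ⟨h1.le, h2.le⟩
    · rw [hG2 z h]
      obtain ⟨h1, h2, _⟩ := hs2 hγ hγc hγd _ (F2 ⟨z, h⟩).2
      exact ⟨h1.le, h2.le⟩
  have hmono : ∀ z ∈ Icc a b, ∀ z' ∈ Icc a b, z < z' → G z < G z' := by
    intro z hz z' hz' hlt
    rcases hcase z hz with h | h | h | h
    · rcases hcase z' hz' with h' | h' | h' | h'
      · rw [h, h'] at hlt; exact absurd hlt (lt_irrefl _)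
      · rw [h, h', hGa, hGb]; exact hcd
      · rw [h, hGa, hG1 z' h']
        exact (hs1 hγ hγc hγd _ (F1 ⟨z', h'⟩).2).1
      · rw [h, hGa, hG2 z' h']
        exact (hs2 hγ hγc hγd _ (F2 ⟨z', h'⟩).2).1
    · rw [h] at hlt
      exact absurd hz'.2 (not_le.mpr hlt)
    · rcases hcase z' hz' with h' | h' | h' | h'
      · rw [h'] at hlt; exact absurd hz.1 (not_le.mpr hlt)
      · rw [h', hGb, hG1 z h]
        exact (hs1 hγ hγc hγd _ (F1 ⟨z, h⟩).2).2.1
      · rw [hG1 z h, hG1 z' h']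
        have : F1 ⟨z, h⟩ < F1 ⟨z', h'⟩ := F1.lt_iff_lt.mpr hlt
        exact this
      · rw [hG1 z h, hG2 z' h']
        exact hcross hγ hγc hγd _ (F1 ⟨z, h⟩).2 _ (F2 ⟨z', h'⟩).2
    · rcases hcase z' hz' with h' | h' | h' | h'
      · rw [h'] at hlt; exact absurd hz.1 (not_le.mpr hlt)
      · rw [h', hGb, hG2 z h]
        exact (hs2 hγ hγc hγd _ (F2 ⟨z, h⟩).2).2.1
      · exact absurd (hcross hδ hδa hδb _ h' _ h) (not_lt.mpr hlt.le)
      · rw [hG2 z h, hG2 z' h']
        have : F2 ⟨z, h⟩ < F2 ⟨z', h'⟩ := F2.lt_iff_lt.mpr hlt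
        exact this
  have hin' : ∀ z, c < z → z < d → z ∈ Side true c γ ∨ z ∈ Side false d γ := by
    intro z haz hzb
    have hag : ∀ j < γ, z.fn j = c.fn j := by
      by_contra hcon
      push Not at hcon
      obtain ⟨j0, hj0, hne⟩ := hcon
      obtain ⟨i, hi1, hi2⟩ := K.exists_first (x := c) (y := z) haz.ne
      have hi : i ≤ j0 := by
        by_contra hh
        exact hne (hi1 j0 (not_le.mp hh)).symm
      have hlt : i < γ := hi.trans_lt hj0
      have h1 := K.first_of_lt haz hi1 hi2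
      have h2 := K.first_of_lt hzb (i := i)
        (fun j hj => by rw [← hi1 j hj]; exact hγ j (hj.trans hlt))
        (by rw [← hγ i hlt]; exact hi2.symm)
      rw [h2.1] at h1
      exact absurd h1.2 (by decide)
    cases hz : z.fn γ
    · left
      obtain ⟨i, hi1, hi2⟩ := K.exists_first (x := c) (y := z) haz.ne
      have h1 := K.first_of_lt haz hi1 hi2
      refine ⟨i, ?_, h1.1, fun j hj => (hi1 j hj).symm, h1.2⟩
      rcases lt_trichotomy γ i with h | h | h
      · exact h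
      · exact absurd (by rw [← h, hγc, hz]) hi2
      · exact absurd (hag i h).symm hi2
    · right
      obtain ⟨i, hi1, hi2⟩ := K.exists_first (x := z) (y := d) hzb.ne
      have h1 := K.first_of_lt hzb hi1 hi2
      refine ⟨i, ?_, h1.2, hi1, h1.1⟩
      rcases lt_trichotomy γ i with h | h | h
      · exact h
      · exact absurd (by rw [← h, hγd, hz]) hi2
      · exact absurd (by rw [hag i h, hγ i h]) hi2
  let F : Icc a b → Icc c d := fun z => ⟨G z.1, hmem z.1 z.2⟩
  have hFm : StrictMono F := fun z z' h => hmono z.1 z.2 z'.1 z'.2 h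
  have hFs : Function.Surjective F := by
    rintro ⟨w, hw⟩
    rcases hw.1.eq_or_lt with h | h
    · exact ⟨⟨a, le_rfl, hab.le⟩, Subtype.ext (by simp only [F]; rw [hGa, h])⟩
    rcases hw.2.eq_or_lt with h' | h'
    · exact ⟨⟨b, hab.le, le_rfl⟩, Subtype.ext (by simp only [F]; rw [hGb, h'])⟩
    rcases hin' w h h' with h1 | h1
    · set z := F1.symm ⟨w, h1⟩ with hz
      obtain ⟨g1, g2, _⟩ := hs1 hδ hδa hδb _ z.2
      refine ⟨⟨z.1, g1.le, g2.le⟩, Subtype.ext ?_⟩
      simp only [F]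
      rw [hG1 z.1 z.2]
      have : F1 z = ⟨w, h1⟩ := F1.apply_symm_apply _
      rw [show (⟨z.1, z.2⟩ : Side true a δ) = z from rfl, this]
    · set z := F2.symm ⟨w, h1⟩ with hz
      obtain ⟨g1, g2, _⟩ := hs2 hδ hδa hδb _ z.2
      refine ⟨⟨z.1, g1.le, g2.le⟩, Subtype.ext ?_⟩
      simp only [F]
      rw [hG2 z.1 z.2]
      have : F2 z = ⟨w, h1⟩ := F2.apply_symm_apply _
      rw [show (⟨z.1, z.2⟩ : Side false b δ) = z from rfl, this]
  exact ⟨hFm.orderIsoOfSurjective F hFs⟩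

end side

end Pool.Agent.W913.HC
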