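import Mathlib

namespace Pool.Agent.W913.HC

open Set

universe u

theorem iso_icc_left {K : Type u} [LinearOrder K] {a b c d : K} (hab : a ≤ b) (hcd : c ≤ d)
    (e : Icc a b ≃o Icc c d) : (e ⟨a, le_rfl, hab⟩).1 = c := by
  apply le_antisymm
  · have h1 : (⟨a, le_rfl, hab⟩ : Icc a b) ≤ e.symm ⟨c, le_rfl, hcd⟩ :=
      (e.symm ⟨c, le_rfl, hcd⟩).2.1
    rw [OrderIso.le_symm_apply] at h1
    exact h1
  · exact (e ⟨a, le_rfl, hab⟩).2.1

theorem iso_icc_right {K : Type u} [LinearOrder K] {a b c d : K} (hab : a ≤ b) (hcd : c ≤ d)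
    (e : Icc a b ≃o Icc c d) : (e ⟨b, hab, le_rfl⟩).1 = d := by
  apply le_antisymm
  · exact (e ⟨b, hab, le_rfl⟩).2.2
  · have h1 : e.symm ⟨d, hcd, le_rfl⟩ ≤ (⟨b, hab, le_rfl⟩ : Icc a b) :=
      (e.symm ⟨d, hcd, le_rfl⟩).2.2
    rw [OrderIso.symm_apply_le] at h1
    exact h1

theorem glue {K : Type u} [LinearOrder K]
    (H : ∀ {a b c d : K}, a < b → c < d → Nonempty (Icc a b ≃o Icc c d))
    {w x y z : K} (hwx : w < x) (hwy : w < y) (hxz : x < z) (hyz : y < z) :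
    ∃ τ : K ≃o K, τ x = y ∧ (∀ t, t ≤ w → τ t = t) ∧ (∀ t, z ≤ t → τ t = t) := by
  classical
  obtain ⟨e1⟩ := H hwx hwy
  obtain ⟨e2⟩ := H hxz hyz
  let G : K → K := fun t => if h : t ∈ Icc w x then (e1 ⟨t, h⟩).1 else
    if h : t ∈ Icc x z then (e2 ⟨t, h⟩).1 else t
  have g1 : ∀ t (h : t ∈ Icc w x), G t = (e1 ⟨t, h⟩).1 := fun t h => by simp only [G, dif_pos h]
  have g2 : ∀ t (h : t ∈ Icc x z), x < t → G t = (e2 ⟨t, h⟩).1 := by
    intro t h hx
    have h1 : t ∉ Icc w x := fun h1 => absurd h1.2 (not_le.mpr hx)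
    simp only [G, dif_neg h1, dif_pos h]
  have g0 : ∀ t, t < w → G t = t := by
    intro t h
    have h1 : t ∉ Icc w x := fun h1 => absurd h1.1 (not_le.mpr h)
    have h2 : t ∉ Icc x z := fun h1 => absurd (hwx.le.trans h1.1) (not_le.mpr h)
    simp only [G, dif_neg h1, dif_neg h2]
  have g3 : ∀ t, z < t → G t = t := by
    intro t h
    have h1 : t ∉ Icc w x := fun h1 => absurd (h1.2.trans hxz.le) (not_le.mpr h)
    have h2 : t ∉ Icc x z := fun h1 => absurd h1.2 (not_le.mpr h)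
    simp only [G, dif_neg h1, dif_neg h2]
  have g2' : ∀ t (h : t ∈ Icc x z), x < t → y < G t := by
    intro t h hx
    rw [g2 t h hx]
    have h1 : e2 ⟨x, le_rfl, hxz.le⟩ < e2 ⟨t, h⟩ := e2.lt_iff_lt.mpr hx
    have h2 := iso_icc_left hxz.le hyz.le e2
    calc y = (e2 ⟨x, le_rfl, hxz.le⟩).1 := h2.symm
      _ < _ := h1
  have gx : G x = y := by
    rw [g1 x ⟨hwx.le, le_rfl⟩]
    exact iso_icc_right hwx.le hwy.le e1
  have gw : G w = w := by
    rw [g1 w ⟨le_rfl, hwx.le⟩]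
    exact iso_icc_left hwx.le hwy.le e1
  have gz : G z = z := by
    rw [g2 z ⟨hxz.le, le_rfl⟩ hxz]
    exact iso_icc_right hxz.le hyz.le e2
  have hcase : ∀ t, t < w ∨ t ∈ Icc w x ∨ (x < t ∧ t ∈ Icc x z) ∨ z < t := by
    intro t
    rcases lt_or_ge t w with h | h
    · exact Or.inl h
    rcases le_or_gt t x with h1 | h1
    · exact Or.inr (Or.inl ⟨h, h1⟩)
    rcases le_or_gt t z with h2 | h2
    · exact Or.inr (Or.inr (Or.inl ⟨h1, h1.le, h2⟩))
    · exact Or.inr (Or.inr (Or.inr h2))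
  have hmono : StrictMono G := by
    intro t t' hlt
    rcases hcase t with h | h | ⟨hx, h⟩ | h <;> rcases hcase t' with h' | h' | ⟨hx', h'⟩ | h'
    · rw [g0 t h, g0 t' h']; exact hlt
    · rw [g0 t h, g1 t' h']; exact h.trans_le (e1 ⟨t', h'⟩).2.1
    · rw [g0 t h]; exact (h.trans hwy).trans (g2' t' h' hx')
    · rw [g0 t h, g3 t' h']; exact hlt
    · exact absurd h.1 (not_le.mpr (hlt.trans h'))
    · rw [g1 t h, g1 t' h']
      have : e1 ⟨t, h⟩ < e1 ⟨t', h'⟩ := e1.lt_iff_lt.mpr hlt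
      exact this
    · rw [g1 t h]; exact (e1 ⟨t, h⟩).2.2.trans_lt (g2' t' h' hx')
    · rw [g1 t h, g3 t' h']; exact ((e1 ⟨t, h⟩).2.2.trans hyz.le).trans_lt h'
    · exact absurd (hwx.trans hx) (not_lt.mpr (hlt.trans h').le)
    · exact absurd h'.2 (not_le.mpr (hx.trans hlt))
    · rw [g2 t h hx, g2 t' h' hx']
      have : e2 ⟨t, h⟩ < e2 ⟨t', h'⟩ := e2.lt_iff_lt.mpr hlt
      exact this
    · rw [g2 t h hx, g3 t' h']; exact (e2 ⟨t, h⟩).2.2.trans_lt h'
    · exact absurd (hwx.trans hxz) (not_lt.mpr ((h.trans hlt).trans h').le)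
    · exact absurd (h'.2.trans hxz.le) (not_le.mpr (h.trans hlt))
    · exact absurd h'.2 (not_le.mpr (h.trans hlt))
    · rw [g3 t h, g3 t' h']; exact hlt
  have hsurj : Function.Surjective G := by
    intro s
    rcases lt_or_ge s w with h | h
    · exact ⟨s, g0 s h⟩
    rcases le_or_gt s y with h1 | h1
    · refine ⟨(e1.symm ⟨s, h, h1⟩).1, ?_⟩
      rw [g1 _ (e1.symm ⟨s, h, h1⟩).2]
      have : e1 (e1.symm ⟨s, h, h1⟩) = ⟨s, h, h1⟩ := e1.apply_symm_apply _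
      rw [show (⟨(e1.symm ⟨s, h, h1⟩).1, (e1.symm ⟨s, h, h1⟩).2⟩ : Icc w x) =
        e1.symm ⟨s, h, h1⟩ from rfl, this]
    rcases le_or_gt s z with h2 | h2
    · have hx : x < (e2.symm ⟨s, h1.le, h2⟩).1 := by
        have h5 : (⟨x, le_rfl, hxz.le⟩ : Icc x z) < e2.symm ⟨s, h1.le, h2⟩ := by
          rw [OrderIso.lt_symm_apply]
          show (e2 ⟨x, le_rfl, hxz.le⟩).1 < s
          rw [iso_icc_left hxz.le hyz.le e2]
          exact h1
        exact h5
      refine ⟨(e2.symm ⟨s, h1.le, h2⟩).1, ?_⟩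
      rw [g2 _ (e2.symm ⟨s, h1.le, h2⟩).2 hx]
      have : e2 (e2.symm ⟨s, h1.le, h2⟩) = ⟨s, h1.le, h2⟩ := e2.apply_symm_apply _
      rw [show (⟨(e2.symm ⟨s, h1.le, h2⟩).1, (e2.symm ⟨s, h1.le, h2⟩).2⟩ : Icc x z) =
        e2.symm ⟨s, h1.le, h2⟩ from rfl, this]
    · exact ⟨s, g3 s h2⟩
  refine ⟨hmono.orderIsoOfSurjective G hsurj, gx, ?_, ?_⟩
  · intro t ht
    rcases ht.eq_or_lt with h | h
    · rw [h]; exact gw
    · exact g0 t h
  · intro t ht
    rcases ht.eq_or_lt with h | h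
    · rw [← h]; exact gz
    · exact g3 t h

/-- an automorphism taking `x` to `y` and preserving a lower set without greatest element -/
theorem exists_move {K : Type u} [LinearOrder K] [NoMinOrder K]
    (H : ∀ {a b c d : K}, a < b → c < d → Nonempty (Icc a b ≃o Icc c d))
    {W : Set K} (hW : IsLowerSet W) (hW2 : ∀ x ∈ W, ∃ y ∈ W, x < y)
    {x y : K} (hx : x ∈ W) (hy : y ∈ W) :
    ∃ τ : K ≃o K, τ x = y ∧ ∀ t, τ t ∈ W ↔ t ∈ W := by
  obtain ⟨w, hw⟩ := exists_lt (min x y)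
  have hmax : max x y ∈ W := by
    rcases le_total x y with h | h
    · rw [max_eq_right h]; exact hy
    · rw [max_eq_left h]; exact hx
  obtain ⟨z, hzW, hz⟩ := hW2 _ hmax
  obtain ⟨τ, h1, h2, h3⟩ := glue H (hw.trans_le (min_le_left _ _)) (hw.trans_le (min_le_right _ _))
    ((le_max_left _ _).trans_lt hz) ((le_max_right _ _).trans_lt hz)
  refine ⟨τ, h1, fun t => ?_⟩
  rcases le_or_gt z t with h | h
  · rw [h3 t h]
  · have h4 : τ t < z := by
      rw [← h3 z le_rfl]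
      exact τ.lt_iff_lt.mpr h
    exact ⟨fun _ => hW h.le hzW, fun _ => hW h4.le hzW⟩

/-- automorphisms act transitively on increasing pairs -/
theorem exists_two {K : Type u} [LinearOrder K] [NoMinOrder K] [NoMaxOrder K]
    (H : ∀ {a b c d : K}, a < b → c < d → Nonempty (Icc a b ≃o Icc c d))
    {p q r s : K} (hpq : p < q) (hrs : r < s) :
    ∃ σ : K ≃o K, σ p = r ∧ σ q = s := by
  obtain ⟨τ1, h1, -⟩ := exists_move H (W := univ) (fun _ _ _ _ => trivial)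
    (fun x _ => by obtain ⟨y, hy⟩ := exists_gt x; exact ⟨y, trivial, hy⟩)
    (x := p) (y := r) trivial trivial
  have h2 : r < τ1 q := by rw [← h1]; exact τ1.lt_iff_lt.mpr hpq
  obtain ⟨z, hz⟩ := exists_gt (max (τ1 q) s)
  obtain ⟨τ2, h3, h4, -⟩ := glue H h2 hrs ((le_max_left _ _).trans_lt hz)
    ((le_max_right _ _).trans_lt hz)
  refine ⟨τ1.trans τ2, ?_, ?_⟩
  · simp only [OrderIso.trans_apply]
    rw [h1]
    exact h4 r le_rfl
  · simp only [OrderIso.trans_apply]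
    exact h3

end Pool.Agent.W913.HC
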