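import Pool.Agent.W913.HC.TChar

/-! Colouring the levels of a regular cardinal by the type of their left neighbourhoods. -/

namespace Pool.Agent.W913.HC

open Cardinal Set Order Ordinal

universe u

section col

variable {Λ : Type u} [LinearOrder Λ] [WellFoundedLT Λ]

/-- all small left neighbourhoods of `ξ` have type `o` -/
def Col (ξ : Λ) (o : Ordinal.{u}) : Prop :=
  ∃ δ < ξ, ∀ δ', δ ≤ δ' → δ' < ξ → typeLT (Ioo δ' ξ) = o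

theorem Col.unique {ξ : Λ} {o o' : Ordinal.{u}} (h : Col ξ o) (h' : Col ξ o') : o = o' := by
  obtain ⟨δ, hδ, h1⟩ := h
  obtain ⟨δ', hδ', h2⟩ := h'
  rw [← h1 (max δ δ') (le_max_left _ _) (max_lt hδ hδ'),
    ← h2 (max δ δ') (le_max_right _ _) (max_lt hδ hδ')]

theorem ioo_nonempty_of_type {ξ δ : Λ} {o : Ordinal.{u}} (ho : o ≠ 0)
    (h : typeLT (Ioo δ ξ) = o) : (Ioo δ ξ).Nonempty := by
  by_contra hcon
  rw [not_nonempty_iff_eq_empty] at hcon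
  apply ho
  rw [← h, type_eq_zero_iff_isEmpty, hcon]
  infer_instance

theorem Col.next {δ ε : Λ} {o : Ordinal.{u}} (hδε : δ < ε) (hj : ∀ j < ε, j ≤ δ) (ho : o ≠ 0) :
    ¬ Col ε o := by
  rintro ⟨δ0, h0, h1⟩
  obtain ⟨z, hz1, hz2⟩ := ioo_nonempty_of_type ho (h1 δ (hj δ0 h0) hδε)
  exact absurd (hj z hz2) (not_le.mpr hz1)

theorem ioo_type_congr {γ δ : Λ} (e : Ioi γ ≃o Ioi δ) (ζ ξ : Ioi γ) :
    typeLT (Ioo ζ.1 ξ.1) = typeLT (Ioo (e ζ).1 (e ξ).1) := by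
  refine OrderIso.ordinalType_congr ?_
  refine StrictMono.orderIsoOfSurjective (fun z => ⟨(e ⟨z.1, lt_trans ζ.2 z.2.1⟩).1, ?_, ?_⟩)
    ?_ ?_
  · have : ζ < ⟨z.1, lt_trans ζ.2 z.2.1⟩ := z.2.1
    exact e.lt_iff_lt.mpr this
  · have : (⟨z.1, lt_trans ζ.2 z.2.1⟩ : Ioi γ) < ξ := z.2.2
    exact e.lt_iff_lt.mpr this
  · intro z z' h
    have : (⟨z.1, lt_trans ζ.2 z.2.1⟩ : Ioi γ) < ⟨z'.1, lt_trans ζ.2 z'.2.1⟩ := h
    exact e.lt_iff_lt.mpr this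
  · rintro ⟨w, hw1, hw2⟩
    have hw : δ < w := lt_trans (e ζ).2 hw1
    have h1 : ζ < e.symm ⟨w, hw⟩ := by rw [OrderIso.lt_symm_apply]; exact hw1
    have h2 : e.symm ⟨w, hw⟩ < ξ := by rw [OrderIso.symm_apply_lt]; exact hw2
    refine ⟨⟨(e.symm ⟨w, hw⟩).1, h1, h2⟩, ?_⟩
    apply Subtype.ext
    show (e ⟨(e.symm ⟨w, hw⟩).1, _⟩).1 = w
    have : e ⟨(e.symm ⟨w, hw⟩).1, lt_trans ζ.2 h1⟩ = ⟨w, hw⟩ := e.apply_symm_apply _
    rw [this]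

theorem Col.map {γ δ : Λ} (e : Ioi γ ≃o Ioi δ) (ξ : Ioi γ) {o : Ordinal.{u}} (ho : o ≠ 0)
    (h : Col ξ.1 o) : Col (e ξ).1 o := by
  obtain ⟨δ0, h0, h1⟩ := h
  -- a point above `γ` in the neighbourhood
  obtain ⟨z, hz1, hz2⟩ := ioo_nonempty_of_type ho (h1 (max δ0 γ) (le_max_left _ _)
    (max_lt h0 ξ.2))
  have hzγ : γ < z := (le_max_right _ _).trans_lt hz1
  have hz0 : δ0 < z := (le_max_left _ _).trans_lt hz1
  refine ⟨(e ⟨z, hzγ⟩).1, ?_, ?_⟩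
  · have : (⟨z, hzγ⟩ : Ioi γ) < ξ := hz2
    exact e.lt_iff_lt.mpr this
  · intro δ' h2 h3
    have hδ' : δ < δ' := lt_of_lt_of_le (e ⟨z, hzγ⟩).2 h2
    have h4 : (⟨z, hzγ⟩ : Ioi γ) ≤ e.symm ⟨δ', hδ'⟩ := by
      rw [OrderIso.le_symm_apply]; exact h2
    have h5 : e.symm ⟨δ', hδ'⟩ < ξ := by
      rw [OrderIso.symm_apply_lt]; exact h3
    have h6 := ioo_type_congr e (e.symm ⟨δ', hδ'⟩) ξ
    rw [OrderIso.apply_symm_apply] at h6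
    rw [← h6]
    exact h1 _ (hz0.le.trans h4) h5

theorem Col.iff {γ δ : Λ} (e : Ioi γ ≃o Ioi δ) (ξ : Ioi γ) {o : Ordinal.{u}} (ho : o ≠ 0) :
    Col (e ξ).1 o ↔ Col ξ.1 o := by
  constructor
  · intro h
    have h1 := Col.map e.symm (e ξ) ho h
    rw [OrderIso.symm_apply_apply] at h1
    exact h1
  · exact Col.map e ξ ho

theorem Col.cof {ξ : Λ} {o : Ordinal.{u}} (ho : o ≠ 0) (h : Col ξ o) :
    Order.cof (Iio ξ) = o.cof := by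
  obtain ⟨δ, hδ, h1⟩ := h
  rw [← h1 δ le_rfl hδ, Ordinal.cof_type]
  refine (cof_subset_eq (fun z hz => hz.2) ?_).symm
  intro a ha
  obtain ⟨z, hz1, hz2⟩ := ioo_nonempty_of_type ho (h1 δ le_rfl hδ)
  by_cases hza : δ < a
  · exact ⟨a, ⟨hza, ha⟩, le_rfl⟩
  · exact ⟨z, ⟨hz1, hz2⟩, (not_lt.mp hza).trans hz1.le⟩

theorem Col.nonempty {ξ : Λ} {o : Ordinal.{u}} (h : Col ξ o) : (Iio ξ).Nonempty := by
  obtain ⟨δ, hδ, h1⟩ := h
  exact ⟨δ, hδ⟩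

theorem Col.limit {ξ : Λ} {o : Ordinal.{u}} (ho : o ≠ 0) (h : Col ξ o) :
    ∀ j < ξ, ∃ k, j < k ∧ k < ξ := by
  obtain ⟨δ, hδ, h1⟩ := h
  intro j hj
  obtain ⟨z, hz1, hz2⟩ := ioo_nonempty_of_type ho (h1 (max δ j) (le_max_left _ _) (max_lt hδ hj))
  exact ⟨z, (le_max_right _ _).trans_lt hz1, hz2⟩

theorem Col.exists {e : Ordinal.{u}} (he : e ≠ 0) (h : ω ^ e < typeLT Λ) :
    ∃ ξ : Λ, Col ξ (ω ^ e) := by
  set ξ : Λ := Ordinal.enum (α := Λ) (· < ·) ⟨ω ^ e, h⟩ with hξ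
  have hty : typeLT (Iio ξ) = ω ^ e := by
    rw [type_Iio_lt]
    exact typein_enum _ h
  have hlim : IsSuccLimit (ω ^ e : Ordinal.{u}) := isSuccLimit_opow_left isSuccLimit_omega0 he
  have hne : (Iio ξ).Nonempty := by
    by_contra hcon
    rw [not_nonempty_iff_eq_empty] at hcon
    have h0 : typeLT (Iio ξ) = 0 := by
      rw [type_eq_zero_iff_isEmpty, hcon]
      infer_instance
    rw [hty] at h0
    exact hlim.ne_bot h0
  obtain ⟨δ0, hδ0⟩ := hne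
  refine ⟨ξ, δ0, hδ0, ?_⟩
  intro δ' _ hδ'
  -- decompose
  have h1 : typeLT (Iio ξ) = typeLT (Iic (⟨δ', hδ'⟩ : Iio ξ)) + typeLT (Ioi (⟨δ', hδ'⟩ : Iio ξ)) := by
    rw [← type_sum_lex]
    refine (RelIso.ordinalType_congr ?_).symm
    exact (OrderIso.sumLexIicIoi (⟨δ', hδ'⟩ : Iio ξ)).toRelIsoLT
  have h2 : typeLT (Ioi (⟨δ', hδ'⟩ : Iio ξ)) = typeLT (Ioo δ' ξ) := by
    refine OrderIso.ordinalType_congr ?_
    refine StrictMono.orderIsoOfSurjective (fun z => ⟨z.1.1, z.2, z.1.2⟩) ?_ ?_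
    · intro z z' h
      exact h
    · rintro ⟨w, hw1, hw2⟩
      exact ⟨⟨⟨w, hw2⟩, hw1⟩, rfl⟩
  have hnm : ∃ k, δ' < k ∧ k < ξ := by
    by_contra hcon
    push Not at hcon
    have h3 : typeLT (Iio ξ) ∈ range succ := by
      rw [type_lt_mem_range_succ_iff]
      refine ⟨⟨δ', hδ'⟩, ?_⟩
      intro z _
      by_contra hlt
      exact absurd (hcon z.1 (not_le.mp hlt)) (not_le.mpr z.2)
    rw [hty] at h3
    obtain ⟨b, hb⟩ := h3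
    exact (hlim.succ_lt (a := b) (by rw [← hb]; exact lt_succ b)).ne hb
  obtain ⟨k, hk1, hk2⟩ := hnm
  have h3 : typeLT (Iic (⟨δ', hδ'⟩ : Iio ξ)) < ω ^ e := by
    rw [← hty]
    refine lt_of_le_of_lt (b := typeLT (Iio (⟨k, hk2⟩ : Iio ξ))) ?_ ?_
    · apply type_mono
      intro z hz
      exact lt_of_le_of_lt (show z ≤ ⟨δ', hδ'⟩ from hz) hk1
    · rw [type_Iio_lt]
      exact typein_lt_type _ _
  rw [hty, h2] at h1
  rcases lt_or_ge (typeLT (Ioo δ' ξ)) (ω ^ e) with h4 | h4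
  · exact absurd h1 (isPrincipal_add_omega0_opow e h3 h4).ne'
  · apply le_antisymm _ h4
    rw [h1]
    exact le_add_self
end col

end Pool.Agent.W913.HC
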