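import Pool.Agent.W913.HC.Agree
import Pool.Agent.W913.HC.Glue

namespace Pool.Agent.W913.HC

open Cardinal Set Order

universe u

variable {Λ : Type u} [LinearOrder Λ] [WellFoundedLT Λ]

theorem exists_next [NoMaxOrder Λ] (δ : Λ) : ∃ ε, δ < ε ∧ ∀ j < ε, j ≤ δ := by
  obtain ⟨ε, h1, h2⟩ := exists_min_mem (Ioi δ) (exists_gt δ)
  exact ⟨ε, h1, fun j hj => not_lt.mp (h2 j hj)⟩

open Classical in
/-- alternates along successors -/
noncomputable def alt : Λ → Bool :=
  WellFoundedLT.fix (motive := fun _ => Bool) (fun ξ rec =>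
    if h : ∃ η, η < ξ ∧ ∀ j < ξ, j ≤ η then !(rec h.choose h.choose_spec.1) else false)

theorem alt_next {η ξ : Λ} (h1 : η < ξ) (h2 : ∀ j < ξ, j ≤ η) : alt ξ = !(alt η) := by
  have h : ∃ η, η < ξ ∧ ∀ j < ξ, j ≤ η := ⟨η, h1, h2⟩
  have h3 : h.choose = η := le_antisymm (h2 _ h.choose_spec.1) (h.choose_spec.2 η h1)
  have h4 : alt ξ = !(alt h.choose) := by
    rw [alt, WellFoundedLT.fix_eq, dif_pos h]
  rw [h4, h3]

theorem alt_both [NoMaxOrder Λ] : Both (alt : Λ → Bool) := by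
  intro v i
  obtain ⟨j, hj1, hj2⟩ := exists_next i
  obtain ⟨k, hk1, hk2⟩ := exists_next j
  have h := alt_next hk1 hk2
  by_cases hv : alt j = v
  · exact ⟨j, hj1, hv⟩
  · refine ⟨k, hj1.trans hk1, ?_⟩
    rw [h]
    revert hv
    cases alt j <;> cases v <;> decide

noncomputable def k0 [NoMaxOrder Λ] : K Λ := K.mk alt alt_both

noncomputable instance [NoMaxOrder Λ] : Nonempty (K Λ) := ⟨k0⟩

open Classical in
/-- `s` on `P`, then `v` up to `i`, `!v` at `i`, then `k0` -/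
noncomputable def pre (P : Set Λ) (s : Λ → Bool) (i : Λ) (v : Bool) : Λ → Bool :=
  fun j => if j ∈ P then s j else if j < i then v else if j = i then !v else alt j

theorem pre_both [NoMaxOrder Λ] {P : Set Λ} (hP : IsLowerSet P) {p : Λ} (hp : p ∉ P)
    (s : Λ → Bool) (i : Λ) (v : Bool) : Both (pre P s i v) := by
  intro w m
  obtain ⟨j, hj, hw⟩ := alt_both w (max m (max i p))
  refine ⟨j, (le_max_left _ _).trans_lt hj, ?_⟩
  have h1 : i < j := ((le_max_left _ _).trans (le_max_right _ _)).trans_lt hj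
  have h2 : p < j := ((le_max_right _ _).trans (le_max_right _ _)).trans_lt hj
  have h3 : j ∉ P := fun h => hp (hP h2.le h)
  simp only [pre, if_neg h3, if_neg h1.not_gt, if_neg h1.ne']
  exact hw

theorem pre_mem (P : Set Λ) (s : Λ → Bool) (i : Λ) (v : Bool) {j : Λ} (h : j ∈ P) :
    pre P s i v j = s j := by simp only [pre, if_pos h]

theorem pre_lt (P : Set Λ) (s : Λ → Bool) (i : Λ) (v : Bool) {j : Λ} (h : j ∉ P) (h' : j < i) :
    pre P s i v j = v := by simp only [pre, if_neg h, if_pos h']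

theorem pre_at (P : Set Λ) (s : Λ → Bool) (i : Λ) (v : Bool) (h : i ∉ P) :
    pre P s i v i = !v := by simp only [pre, if_neg h, lt_irrefl, if_false, if_true]

/-- the cone over an initial segment -/
def Cone (P : Set Λ) (s : Λ → Bool) : Set (K Λ) := {x | ∀ j ∈ P, x.fn j = s j}

theorem cone_first {P : Set Λ} (hP : IsLowerSet P) {p : Λ} (hp : p ∉ P) (x : K Λ) (v : Bool) :
    ∃ m, m ∉ P ∧ x.fn m = v ∧ ∀ j < m, j ∉ P → x.fn j = !v := by
  have hne : {m | m ∉ P ∧ x.fn m = v}.Nonempty := by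
    obtain ⟨j, hj, hv⟩ := x.both v p
    exact ⟨j, fun h => hp (hP hj.le h), hv⟩
  obtain ⟨m, hm, hm2⟩ := exists_min_mem _ hne
  refine ⟨m, hm.1, hm.2, fun j hj hjP => ?_⟩
  have h := hm2 j hj
  have h' : x.fn j ≠ v := fun hv => h ⟨hjP, hv⟩
  revert h'
  cases x.fn j <;> cases v <;> decide

/-- comparison of an element of a cone with the standard elements -/
theorem cone_compare [NoMaxOrder Λ] {P : Set Λ} (hP : IsLowerSet P) {p : Λ} (hp : p ∉ P)
    {s : Λ → Bool} {x : K Λ} (hx : x ∈ Cone P s) {v : Bool} {m i : Λ} (hm : m ∉ P)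
    (hxm : x.fn m = !v) (hlt : ∀ j < m, j ∉ P → x.fn j = v) (hmi : m < i) :
    (v = true → x < K.mk (pre P s i v) (pre_both hP hp s i v)) ∧
    (v = false → K.mk (pre P s i v) (pre_both hP hp s i v) < x) := by
  have hag : ∀ j < m, x.fn j = (K.mk (pre P s i v) (pre_both hP hp s i v)).fn j := by
    intro j hj
    rw [K.fn_mk]
    by_cases hjP : j ∈ P
    · rw [pre_mem _ _ _ _ hjP, hx j hjP]
    · rw [pre_lt _ _ _ _ hjP (hj.trans hmi), hlt j hj hjP]
  have hmv : (K.mk (pre P s i v) (pre_both hP hp s i v)).fn m = v := by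
    rw [K.fn_mk, pre_lt _ _ _ _ hm hmi]
  constructor
  · rintro rfl
    exact K.lt_of_first hag hxm hmv
  · rintro rfl
    exact K.lt_of_first (fun j hj => (hag j hj).symm) hmv hxm

theorem cof_cone [NoMaxOrder Λ] {P : Set Λ} (hP : IsLowerSet P) {p : Λ} (hp : p ∉ P)
    (s : Λ → Bool) : Order.cof (Cone P s) = Order.cof Λ := by
  have hρ : ∀ x : Cone P s, ∃ m, m ∉ P ∧ x.1.fn m = false ∧ ∀ j < m, j ∉ P → x.1.fn j = true := by
    intro x
    exact cone_first hP hp x.1 false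
  choose ρ h1 h2 h3 using hρ
  refine cof_eq_of_maps (fun i => exists_gt i) ρ (fun i => ⟨K.mk (pre P s i true)
    (pre_both hP hp s i true), fun j hj => by rw [K.fn_mk, pre_mem _ _ _ _ hj]⟩) ?_
  intro x i hi
  exact (cone_compare hP hp x.2 (v := true) (h1 x) (h2 x) (h3 x) hi).1 rfl

theorem coinit_cone [NoMaxOrder Λ] {P : Set Λ} (hP : IsLowerSet P) {p : Λ} (hp : p ∉ P)
    (s : Λ → Bool) : Order.cof (OrderDual (Cone P s)) = Order.cof Λ := by
  have hρ : ∀ x : OrderDual (Cone P s), ∃ m, m ∉ P ∧ (OrderDual.ofDual x).1.fn m = true ∧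
      ∀ j < m, j ∉ P → (OrderDual.ofDual x).1.fn j = false := by
    intro x
    exact cone_first hP hp (OrderDual.ofDual x).1 true
  choose ρ h1 h2 h3 using hρ
  refine cof_eq_of_maps (fun i => exists_gt i) ρ (fun i => OrderDual.toDual
    ⟨K.mk (pre P s i false) (pre_both hP hp s i false),
      fun j hj => by rw [K.fn_mk, pre_mem _ _ _ _ hj]⟩) ?_
  intro x i hi
  exact (cone_compare hP hp (OrderDual.ofDual x).2 (v := false) (h1 x) (h2 x) (h3 x) hi).2 rfl

/-- the lower set of functions with a zero on `I` -/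
def V (I : Set Λ) : Set (K Λ) := {x | ∃ i ∈ I, x.fn i = false}

theorem V_lower {I : Set Λ} (hI : IsLowerSet I) : IsLowerSet (V I) := by
  rintro y x hxy ⟨i, hi, hyi⟩
  rcases hxy.eq_or_lt with h | h
  · rw [h]; exact ⟨i, hi, hyi⟩
  · obtain ⟨m, hm, hm1, hm2⟩ := K.lt_iff.mp h
    rcases lt_trichotomy m i with h1 | h1 | h1
    · exact ⟨m, hI h1.le hi, hm1⟩
    · rw [h1, hyi] at hm2
      exact absurd hm2 (by decide)
    · exact ⟨i, hi, by rw [hm i h1, hyi]⟩

theorem isLowerSet_empty' : IsLowerSet (∅ : Set Λ) := fun _ _ _ h => h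

theorem pre_mem_V [NoMaxOrder Λ] {I : Set Λ} {i : Λ} (hi : i ∈ I) :
    K.mk (pre ∅ alt i true) (pre_both isLowerSet_empty' (p := i) (by simp) alt i true) ∈ V I :=
  ⟨i, hi, by rw [K.fn_mk, pre_at _ _ _ _ (by simp)]; rfl⟩

theorem lt_pre_of_V [NoMaxOrder Λ] {x : K Λ} {m i : Λ} (hxm : x.fn m = false)
    (hlt : ∀ j < m, x.fn j = true) (hmi : m < i) :
    x < K.mk (pre ∅ alt i true) (pre_both isLowerSet_empty' (p := i) (by simp) alt i true) :=
  (cone_compare isLowerSet_empty' (p := i) (by simp) (s := alt) (x := x)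
    (fun j hj => absurd hj (by simp)) (v := true) (m := m) (by simp) hxm
    (fun j hj _ => hlt j hj) hmi).1 rfl

theorem V_first {I : Set Λ} (hI : IsLowerSet I) {x : K Λ} (hx : x ∈ V I) :
    ∃ m ∈ I, x.fn m = false ∧ ∀ j < m, x.fn j = true := by
  obtain ⟨i, hi, hxi⟩ := hx
  obtain ⟨m, hm, hm2⟩ := exists_min_mem {j | x.fn j = false} ⟨i, hxi⟩
  have hmi : m ≤ i := by
    by_contra h
    exact hm2 i (not_le.mp h) hxi
  refine ⟨m, hI hmi hi, hm, fun j hj => ?_⟩
  have := hm2 j hj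
  revert this
  show x.fn j ≠ false → _
  cases x.fn j <;> decide

theorem V_noMax [NoMaxOrder Λ] {I : Set Λ} (hI : IsLowerSet I) (hI2 : ∀ i ∈ I, ∃ j ∈ I, i < j)
    {x : K Λ} (hx : x ∈ V I) : ∃ y ∈ V I, x < y := by
  obtain ⟨m, hm, h1, h2⟩ := V_first hI hx
  obtain ⟨i, hi, hmi⟩ := hI2 m hm
  exact ⟨_, pre_mem_V hi, lt_pre_of_V h1 h2 hmi⟩

theorem cof_V [NoMaxOrder Λ] {I : Set Λ} (hI : IsLowerSet I) (hI2 : ∀ i ∈ I, ∃ j ∈ I, i < j) :
    Order.cof (V I) = Order.cof I := by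
  have hρ : ∀ x : V I, ∃ m : I, x.1.fn m.1 = false ∧ ∀ j < m.1, x.1.fn j = true := by
    intro x
    obtain ⟨m, hm, h1, h2⟩ := V_first hI x.2
    exact ⟨⟨m, hm⟩, h1, h2⟩
  choose ρ h1 h2 using hρ
  refine cof_eq_of_maps ?_ ρ (fun i => ⟨_, pre_mem_V i.2⟩) ?_
  · intro i
    obtain ⟨j, hj, hij⟩ := hI2 i.1 i.2
    exact ⟨⟨j, hj⟩, hij⟩
  · intro x i hi
    exact lt_pre_of_V (h1 x) (h2 x) hi

theorem cof_K [NoMaxOrder Λ] [Nonempty Λ] : Order.cof (K Λ) = Order.cof Λ := by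
  obtain ⟨p⟩ := ‹Nonempty Λ›
  rw [← cof_cone isLowerSet_empty' (p := p) (by simp) (alt : Λ → Bool)]
  refine (Order.cof_congr_of_strictMono
    (f := fun d : Cone (∅ : Set Λ) alt => d.1) (fun x y h => h) ?_).symm
  intro x
  exact ⟨x, ⟨⟨x, fun j hj => absurd hj (by simp)⟩, rfl⟩, le_rfl⟩

theorem coinit_K [NoMaxOrder Λ] [Nonempty Λ] : Order.cof (OrderDual (K Λ)) = Order.cof Λ := by
  obtain ⟨p⟩ := ‹Nonempty Λ›
  rw [← coinit_cone isLowerSet_empty' (p := p) (by simp) (alt : Λ → Bool)]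
  refine (Order.cof_congr_of_strictMono
    (f := fun d : OrderDual (Cone (∅ : Set Λ) alt) => OrderDual.toDual (OrderDual.ofDual d).1)
    (fun x y h => h) ?_).symm
  intro x
  exact ⟨x, ⟨OrderDual.toDual ⟨OrderDual.ofDual x, fun j hj => absurd hj (by simp)⟩, rfl⟩, le_rfl⟩

theorem coinit_lower [NoMaxOrder Λ] [Nonempty Λ] {W : Set (K Λ)} (hW : IsLowerSet W)
    (hne : W.Nonempty) : Order.cof (OrderDual W) = Order.cof Λ := by
  rw [← coinit_K (Λ := Λ)]
  refine Order.cof_congr_of_strictMono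
    (f := fun d : OrderDual W => OrderDual.toDual (OrderDual.ofDual d).1) (fun x y h => h) ?_
  intro x
  obtain ⟨w, hw⟩ := hne
  refine ⟨OrderDual.toDual (min (OrderDual.ofDual x) w),
    ⟨OrderDual.toDual ⟨min (OrderDual.ofDual x) w, hW (min_le_right _ _) hw⟩, rfl⟩, ?_⟩
  show min (OrderDual.ofDual x) w ≤ OrderDual.ofDual x
  exact min_le_left _ _

instance [NoMaxOrder Λ] [Nonempty Λ] : NoMaxOrder (K Λ) where
  exists_gt x := by
    obtain ⟨i⟩ := ‹Nonempty Λ›
    obtain ⟨j, hj, hv⟩ := x.both false i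
    obtain ⟨y, _, hy⟩ := V_noMax (I := Set.univ) (fun _ _ _ _ => trivial)
      (fun i _ => by obtain ⟨j, hj⟩ := exists_gt i; exact ⟨j, trivial, hj⟩) (x := x)
      ⟨j, trivial, hv⟩
    exact ⟨y, hy⟩

instance [NoMaxOrder Λ] [Nonempty Λ] : NoMinOrder (K Λ) where
  exists_lt x := by
    obtain ⟨i⟩ := ‹Nonempty Λ›
    obtain ⟨m, hm, h1, h2⟩ := cone_first isLowerSet_empty' (p := i) (by simp) x true
    obtain ⟨k, hk⟩ := exists_gt m
    exact ⟨_, (cone_compare isLowerSet_empty' (p := i) (by simp) (s := alt) (x := x)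
      (fun j hj => absurd hj (by simp)) (v := false) (m := m) (by simp) h1
      (fun j hj hP => h2 j hj hP) hk).2 rfl⟩

theorem K.rep : Rep (fun x : K Λ => x.fn) where
  inj := fun _ _ h => K.ext h
  lt_iff := fun _ _ => Iff.rfl

/-- Every gap of `K` has a side whose character is that of `Λ`. -/
theorem K.gap [NoMaxOrder Λ] [Nonempty Λ] {A B : Set (K Λ)} (hA : A.Nonempty)
    (hlt : ∀ a ∈ A, ∀ b ∈ B, a < b) (hmax : ∀ a ∈ A, ∃ a' ∈ A, a < a')
    (hcov : ∀ x, x ∈ A ∨ x ∈ B) :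
    Order.cof A = Order.cof Λ ∨ Order.cof (OrderDual B) = Order.cof Λ := by
  classical
  obtain ⟨I, s, P⟩ := K.rep.exists_path hA hlt
  by_cases hI : I = Set.univ
  · rw [hI] at P
    exact Or.inl (K.rep.cof_full P hmax)
  obtain ⟨δ, hδ1, hδ2⟩ := exists_min_mem Iᶜ (nonempty_compl.mpr hI)
  have hδ : ∀ ξ < δ, ξ ∈ I := fun ξ hξ => by
    by_contra h
    exact hδ2 ξ hξ h
  have hPP : IsLowerSet (Iio δ) := isLowerSet_Iio δ
  have hp : δ ∉ Iio δ := fun h => lt_irrefl _ h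
  by_cases hDB : ∀ x ∈ Cone (Iio δ) s, x ∉ B
  · left
    have hDA : Cone (Iio δ) s ⊆ A := fun x hx => (hcov x).resolve_right (hDB x hx)
    rw [← cof_cone hPP hp s]
    refine (cof_subset_eq hDA ?_).symm
    intro a ha
    by_cases hc : a ∈ Cone (Iio δ) s
    · exact ⟨a, hc, le_rfl⟩
    · refine ⟨K.mk (pre (Iio δ) s δ true) (pre_both hPP hp s δ true), ?_, ?_⟩
      · intro j hj
        rw [K.fn_mk, pre_mem _ _ _ _ hj]
      · exact (K.rep.below_cone P hδ ha hc
          (x := K.mk (pre (Iio δ) s δ true) (pre_both hPP hp s δ true))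
          (fun j hj => pre_mem _ _ _ _ hj)).le
  by_cases hDA : ∀ x ∈ Cone (Iio δ) s, x ∉ A
  · right
    have hDB' : Cone (Iio δ) s ⊆ B := fun x hx => (hcov x).resolve_left (hDA x hx)
    rw [← coinit_cone hPP hp s]
    refine (coinit_subset_eq hDB' ?_).symm
    intro b hb
    by_cases hc : b ∈ Cone (Iio δ) s
    · exact ⟨b, hc, le_rfl⟩
    · refine ⟨K.mk (pre (Iio δ) s δ true) (pre_both hPP hp s δ true), ?_, ?_⟩
      · intro j hj
        rw [K.fn_mk, pre_mem _ _ _ _ hj]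
      · exact (K.rep.above_cone P hδ hb hc
          (x := K.mk (pre (Iio δ) s δ true) (pre_both hPP hp s δ true))
          (fun j hj => pre_mem _ _ _ _ hj)).le
  left
  push Not at hDA hDB
  obtain ⟨a, haD, haA⟩ := hDA
  obtain ⟨b, hbD, hbB⟩ := hDB
  have hne : a.fn δ ≠ b.fn δ := by
    intro h
    refine P.sep δ hδ1 a haA b hbB ?_
    intro η hη
    rcases hη.eq_or_lt with h1 | h1
    · rw [h1]; exact h
    · exact (haD η h1).trans (hbD η h1).symm
  have h1 := K.first_of_lt (hlt a haA b hbB) (i := δ)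
    (fun j hj => (haD j hj).trans (hbD j hj).symm) hne
  set s' : Λ → Bool := Function.update s δ false with hs'
  have hP' : IsLowerSet (Iic δ) := isLowerSet_Iic δ
  obtain ⟨ε, hε⟩ := exists_gt δ
  have hp' : ε ∉ Iic δ := fun h => absurd hε (not_lt.mpr h)
  have hcone : ∀ x : K Λ, x ∈ Cone (Iic δ) s' ↔ x ∈ Cone (Iio δ) s ∧ x.fn δ = false := by
    intro x
    constructor
    · intro hx
      refine ⟨fun j hj => ?_, ?_⟩
      · have hj' : j < δ := hj
        rw [hx j hj'.le, hs', Function.update_of_ne hj'.ne]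
      · rw [hx δ le_rfl, hs', Function.update_self]
    · rintro ⟨hx, hx'⟩ j hj
      rcases (show j ≤ δ from hj).eq_or_lt with h | h
      · rw [h, hx', hs', Function.update_self]
      · rw [hx j h, hs', Function.update_of_ne h.ne]
  have hCA : Cone (Iic δ) s' ⊆ A := by
    intro x hx
    obtain ⟨hx1, hx2⟩ := (hcone x).mp hx
    refine (hcov x).resolve_right ?_
    intro hxB
    refine P.sep δ hδ1 a haA x hxB ?_
    intro η hη
    rcases hη.eq_or_lt with h | h
    · rw [h]; exact h1.1.trans hx2.symm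
    · exact (haD η h).trans (hx1 η h).symm
  rw [← cof_cone hP' hp' s']
  refine (cof_subset_eq hCA ?_).symm
  intro a' ha'
  by_cases hc : a' ∈ Cone (Iio δ) s
  · refine ⟨a', (hcone a').mpr ⟨hc, ?_⟩, le_rfl⟩
    by_contra hne'
    have h3 : a'.fn δ = true := by
      revert hne'
      cases a'.fn δ <;> decide
    refine P.sep δ hδ1 a' ha' b hbB ?_
    intro η hη
    rcases hη.eq_or_lt with h | h
    · rw [h]; exact h3.trans h1.2.symm
    · exact (hc η h).trans (hbD η h).symm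
  · refine ⟨K.mk (pre (Iic δ) s' ε true) (pre_both hP' hp' s' ε true), ?_, ?_⟩
    · intro j hj
      rw [K.fn_mk, pre_mem _ _ _ _ hj]
    · refine (K.rep.below_cone P hδ ha' hc
          (x := K.mk (pre (Iic δ) s' ε true) (pre_both hP' hp' s' ε true)) ?_).le
      intro j hj
      show pre (Iic δ) s' ε true j = s j
      rw [pre_mem _ _ _ _ (show j ∈ Iic δ from hj.le), hs', Function.update_of_ne hj.ne]

end Pool.Agent.W913.HC
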