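import Pool.Agent.W913.HC.KChar

namespace Pool.Agent.W913.HC

open Cardinal Set Order

universe u

variable {Λ : Type u} [LinearOrder Λ] [WellFoundedLT Λ]

/-- the chain of functions `f : Λ → K` with `f ξ ∈ W ξ` -/
def T (W : Λ → Set (K Λ)) : Type u := {f : Lex (Λ → K Λ) // ∀ ξ, ofLex f ξ ∈ W ξ}

variable {W : Λ → Set (K Λ)}

noncomputable instance : LinearOrder (T W) :=
  inferInstanceAs (LinearOrder {f : Lex (Λ → K Λ) // ∀ ξ, ofLex f ξ ∈ W ξ})

def T.fn (x : T W) : Λ → K Λ := ofLex x.1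

def T.mk (f : Λ → K Λ) (hf : ∀ ξ, f ξ ∈ W ξ) : T W := ⟨toLex f, hf⟩

@[simp] theorem T.fn_mk (f : Λ → K Λ) (hf : ∀ ξ, f ξ ∈ W ξ) : (T.mk f hf).fn = f := rfl

theorem T.mem (x : T W) (ξ : Λ) : x.fn ξ ∈ W ξ := x.2 ξ

theorem T.rep : Rep (fun x : T W => x.fn) where
  inj := fun _ _ h => Subtype.ext h
  lt_iff := fun _ _ => Iff.rfl

theorem T.ext {x y : T W} (h : x.fn = y.fn) : x = y := Subtype.ext h

theorem T.lt_iff {x y : T W} : x < y ↔ ∃ i, (∀ j < i, x.fn j = y.fn j) ∧ x.fn i < y.fn i :=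
  Iff.rfl

/-- the assumptions on the alphabets -/
structure Good (W : Λ → Set (K Λ)) : Prop where
  lower : ∀ ξ, IsLowerSet (W ξ)
  ne : ∀ ξ, (W ξ).Nonempty
  nomax : ∀ ξ, ∀ x ∈ W ξ, ∃ y ∈ W ξ, x < y
  next : ∀ δ ε : Λ, δ < ε → (∀ j < ε, j ≤ δ) → W ε = Set.univ
  tails : ∀ γ δ : Λ, ∃ e : Ioi γ ≃o Ioi δ, ∀ ξ, W (e ξ).1 = W ξ.1

theorem agree_of_between {α : Λ} {a b z : T W} (hab : ∀ j < α, a.fn j = b.fn j)
    (haz : a ≤ z) (hzb : z ≤ b) : ∀ j < α, z.fn j = a.fn j := by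
  by_contra hcon
  obtain ⟨i, hiα, hi, hne⟩ := exists_first_lt hcon
  rcases lt_or_gt_of_ne hne with h | h
  · exact absurd (T.lt_iff.mpr ⟨i, hi, h⟩) (not_lt.mpr haz)
  · refine absurd (T.lt_iff.mpr ⟨i, ?_, ?_⟩) (not_lt.mpr hzb)
    · intro j hj
      rw [hi j hj]
      exact (hab j (hj.trans hiα)).symm
    · rw [← hab i hiα]
      exact h

theorem value_between {α : Λ} {a b z : T W} (hab : ∀ j < α, a.fn j = b.fn j)
    (haz : a ≤ z) (hzb : z ≤ b) : a.fn α ≤ z.fn α ∧ z.fn α ≤ b.fn α := by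
  have hag := agree_of_between hab haz hzb
  constructor
  · by_contra h
    rw [not_le] at h
    exact absurd (T.lt_iff.mpr ⟨α, hag, h⟩) (not_lt.mpr haz)
  · by_contra h
    rw [not_le] at h
    refine absurd (T.lt_iff.mpr ⟨α, ?_, h⟩) (not_lt.mpr hzb)
    intro j hj
    rw [hag j hj, hab j hj]

open Classical in
noncomputable def shift {γ δ : Λ} (c : Λ → K Λ) (e : Ioi γ ≃o Ioi δ) (σ : K Λ ≃o K Λ)
    (τ : K Λ → Ioi γ → (K Λ ≃o K Λ)) (z : Λ → K Λ) : Λ → K Λ :=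
  fun ξ => if h : γ < ξ then τ (z δ) ⟨ξ, h⟩ (z (e ⟨ξ, h⟩)) else if ξ = γ then σ (z δ) else c ξ

section shift

variable {γ δ : Λ} (c : Λ → K Λ) (e : Ioi γ ≃o Ioi δ) (σ : K Λ ≃o K Λ)
    (τ : K Λ → Ioi γ → (K Λ ≃o K Λ)) (z : Λ → K Λ)

theorem shift_above {ξ : Λ} (h : γ < ξ) :
    shift c e σ τ z ξ = τ (z δ) ⟨ξ, h⟩ (z (e ⟨ξ, h⟩)) := by simp only [shift, dif_pos h]

theorem shift_at : shift c e σ τ z γ = σ (z δ) := by
  simp only [shift, lt_irrefl, dite_false, if_true]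

theorem shift_below {ξ : Λ} (h : ξ < γ) : shift c e σ τ z ξ = c ξ := by
  simp only [shift, dif_neg h.not_gt, if_neg h.ne]

theorem shift_lt {a z z' : Λ → K Λ} (hz : ∀ j < δ, z j = a j) (hz' : ∀ j < δ, z' j = a j)
    (h : ∃ i, (∀ j < i, z j = z' j) ∧ z i < z' i) :
    ∃ i, (∀ j < i, shift c e σ τ z j = shift c e σ τ z' j) ∧
      shift c e σ τ z i < shift c e σ τ z' i := by
  obtain ⟨i, hi, hi'⟩ := h
  have hαi : δ ≤ i := by
    by_contra hlt
    rw [not_le] at hlt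
    rw [hz i hlt, hz' i hlt] at hi'
    exact lt_irrefl _ hi'
  rcases hαi.eq_or_lt with rfl | hαi
  · refine ⟨γ, ?_, ?_⟩
    · intro j hj
      rw [shift_below _ _ _ _ _ hj, shift_below _ _ _ _ _ hj]
    · rw [shift_at, shift_at]
      exact σ.lt_iff_lt.mpr hi'
  · have hα : z δ = z' δ := hi δ hαi
    set ξ : Ioi γ := e.symm ⟨i, hαi⟩ with hξ
    have hγξ : γ < (ξ : Λ) := ξ.2
    have heξ : e ξ = ⟨i, hαi⟩ := e.apply_symm_apply _
    refine ⟨ξ, ?_, ?_⟩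
    · intro j hj
      rcases lt_trichotomy j γ with h | h | h
      · rw [shift_below _ _ _ _ _ h, shift_below _ _ _ _ _ h]
      · subst h
        rw [shift_at, shift_at, hα]
      · rw [shift_above _ _ _ _ _ h, shift_above _ _ _ _ _ h, hα]
        congr 1
        apply hi
        have h5 : e ⟨j, h⟩ < e ξ := e.lt_iff_lt.mpr hj
        rw [heξ] at h5
        exact h5
    · rw [shift_above _ _ _ _ _ hγξ, shift_above _ _ _ _ _ hγξ, hα]
      have h6 : e ⟨(ξ : Λ), hγξ⟩ = ⟨i, hαi⟩ := heξ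
      rw [h6]
      exact (τ (z' δ) ⟨ξ, hγξ⟩).lt_iff_lt.mpr hi'

end shift

variable [IsRegularCardinalOrder Λ] [NoMaxOrder Λ] [Nonempty Λ]

theorem T.twoHomogeneous (hW : Good W) (a b c d : T W) (hab : a < b) (hcd : c < d) :
    Nonempty (Icc a b ≃o Icc c d) := by
  classical
  obtain ⟨δ, hδ, hδ'⟩ := T.lt_iff.mp hab
  obtain ⟨γ, hγ, hγ'⟩ := T.lt_iff.mp hcd
  obtain ⟨e, he⟩ := hW.tails γ δ
  obtain ⟨σ, hσa, hσb⟩ := exists_two (fun h1 h2 => K.icc_iso h1 h2) hδ' hγ'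
  have hτa : ∀ ξ : Ioi γ, ∃ τ : K Λ ≃o K Λ, τ (a.fn (e ξ).1) = c.fn ξ.1 ∧
      ∀ t, τ t ∈ W ξ.1 ↔ t ∈ W ξ.1 := fun ξ =>
    exists_move (fun h1 h2 => K.icc_iso h1 h2) (hW.lower ξ.1) (hW.nomax ξ.1)
      (by rw [← he ξ]; exact a.mem _) (c.mem _)
  have hτb : ∀ ξ : Ioi γ, ∃ τ : K Λ ≃o K Λ, τ (b.fn (e ξ).1) = d.fn ξ.1 ∧
      ∀ t, τ t ∈ W ξ.1 ↔ t ∈ W ξ.1 := fun ξ =>
    exists_move (fun h1 h2 => K.icc_iso h1 h2) (hW.lower ξ.1) (hW.nomax ξ.1)
      (by rw [← he ξ]; exact b.mem _) (d.mem _)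
  choose τa hτa1 hτa2 using hτa
  choose τb hτb1 hτb2 using hτb
  let τ : K Λ → Ioi γ → (K Λ ≃o K Λ) := fun t ξ =>
    if t = a.fn δ then τa ξ else if t = b.fn δ then τb ξ else OrderIso.refl _
  have hτW : ∀ t ξ x, τ t ξ x ∈ W ξ.1 ↔ x ∈ W ξ.1 := by
    intro t ξ x
    by_cases h1 : t = a.fn δ
    · simp only [τ, if_pos h1]; exact hτa2 ξ x
    · by_cases h2 : t = b.fn δ
      · simp only [τ, if_neg h1, if_pos h2]; exact hτb2 ξ x
      · simp only [τ, if_neg h1, if_neg h2]; rfl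
  have hτa : ∀ ξ, τ (a.fn δ) ξ = τa ξ := fun ξ => by simp only [τ, if_true]
  have hτb : ∀ ξ, τ (b.fn δ) ξ = τb ξ := fun ξ => by
    simp only [τ, if_neg hδ'.ne', if_true]
  -- the map
  have hΦmem : ∀ z : T W, z.fn δ ≤ b.fn δ → ∀ ξ, shift c.fn e σ τ z.fn ξ ∈ W ξ := by
    intro z hz ξ
    rcases lt_trichotomy ξ γ with h | h | h
    · rw [shift_below _ _ _ _ _ h]; exact c.mem ξ
    · subst h
      rw [shift_at]
      refine hW.lower _ ?_ (d.mem _)
      rw [← hσb]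
      exact σ.monotone hz
    · rw [shift_above _ _ _ _ _ h]
      refine (hτW (z.fn δ) ⟨ξ, h⟩ _).mpr ?_
      rw [show W ξ = W (⟨ξ, h⟩ : Ioi γ).1 from rfl, ← he]
      exact z.mem _
  let Φ : Icc a b → T W := fun z =>
    T.mk (shift c.fn e σ τ z.1.fn) (hΦmem z.1 (value_between hδ z.2.1 z.2.2).2)
  have hΦ : ∀ z, (Φ z).fn = shift c.fn e σ τ z.1.fn := fun z => rfl
  have hzz : ∀ z : Icc a b, ∀ j < δ, z.1.fn j = a.fn j := fun z =>
    agree_of_between hδ z.2.1 z.2.2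
  have hΦlt : ∀ z z' : Icc a b, z < z' → Φ z < Φ z' := fun z z' h =>
    T.lt_iff.mpr (shift_lt c.fn e σ τ (hzz z) (hzz z') (T.lt_iff.mp h))
  have hΦa : Φ ⟨a, le_rfl, hab.le⟩ = c := by
    apply T.ext
    rw [hΦ]
    funext ξ
    rcases lt_trichotomy ξ γ with h | h | h
    · rw [shift_below _ _ _ _ _ h]
    · subst h
      rw [shift_at, hσa]
    · rw [shift_above _ _ _ _ _ h, hτa]
      exact hτa1 ⟨ξ, h⟩
  have hΦb : Φ ⟨b, hab.le, le_rfl⟩ = d := by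
    apply T.ext
    rw [hΦ]
    funext ξ
    rcases lt_trichotomy ξ γ with h | h | h
    · rw [shift_below _ _ _ _ _ h]; exact hγ ξ h
    · subst h
      rw [shift_at, hσb]
    · rw [shift_above _ _ _ _ _ h, hτb]
      exact hτb1 ⟨ξ, h⟩
  have hmem : ∀ z : Icc a b, Φ z ∈ Icc c d := by
    intro z
    constructor
    · rcases z.2.1.eq_or_lt with h | h
      · rw [← hΦa]
        apply le_of_eq
        congr 1
        exact Subtype.ext h
      · rw [← hΦa]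
        exact (hΦlt ⟨a, le_rfl, hab.le⟩ z h).le
    · rcases z.2.2.eq_or_lt with h | h
      · rw [← hΦb]
        apply le_of_eq
        congr 1
        exact Subtype.ext h
      · rw [← hΦb]
        exact (hΦlt z ⟨b, hab.le, le_rfl⟩ h).le
  let F : Icc a b → Icc c d := fun z => ⟨Φ z, hmem z⟩
  have hF : StrictMono F := fun z z' h => hΦlt z z' h
  have hsurj : Function.Surjective F := by
    intro w
    have hwv := value_between hγ w.2.1 w.2.2
    have hwag := agree_of_between hγ w.2.1 w.2.2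
    -- the inverse
    let f : Λ → K Λ := fun η => if h : δ < η then
      (τ (σ.symm (w.1.fn γ)) (e.symm ⟨η, h⟩)).symm (w.1.fn (e.symm ⟨η, h⟩).1) else
      if η = δ then σ.symm (w.1.fn γ) else a.fn η
    have fab : ∀ η (h : δ < η), f η =
      (τ (σ.symm (w.1.fn γ)) (e.symm ⟨η, h⟩)).symm (w.1.fn (e.symm ⟨η, h⟩).1) :=
      fun η h => by simp only [f, dif_pos h]
    have fat : f δ = σ.symm (w.1.fn γ) := by simp only [f, lt_irrefl, dite_false, if_true]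
    have fbe : ∀ η, η < δ → f η = a.fn η := fun η h => by
      simp only [f, dif_neg h.not_gt, if_neg h.ne]
    have hs1 : a.fn δ ≤ σ.symm (w.1.fn γ) := by
      rw [OrderIso.le_symm_apply, hσa]; exact hwv.1
    have hs2 : σ.symm (w.1.fn γ) ≤ b.fn δ := by
      rw [OrderIso.symm_apply_le, hσb]; exact hwv.2
    have hf : ∀ η, f η ∈ W η := by
      intro η
      rcases lt_trichotomy η δ with h | h | h
      · rw [fbe η h]; exact a.mem η
      · rw [h, fat]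
        exact hW.lower _ hs2 (b.mem _)
      · rw [fab η h]
        have h1 : W η = W (e.symm ⟨η, h⟩).1 := by
          rw [← he (e.symm ⟨η, h⟩), OrderIso.apply_symm_apply]
        rw [h1, ← hτW (σ.symm (w.1.fn γ)) (e.symm ⟨η, h⟩), OrderIso.apply_symm_apply]
        exact w.1.mem _
    let z : T W := T.mk f hf
    have hzf : z.fn = f := rfl
    have hshift : shift c.fn e σ τ z.fn = w.1.fn := by
      funext ξ
      rcases lt_trichotomy ξ γ with h | h | h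
      · rw [shift_below _ _ _ _ _ h]; exact (hwag ξ h).symm
      · rw [h, shift_at, hzf, fat, OrderIso.apply_symm_apply]
      · rw [shift_above _ _ _ _ _ h, hzf, fat]
        have h1 : δ < ((e ⟨ξ, h⟩ : Ioi δ) : Λ) := (e ⟨ξ, h⟩).2
        rw [fab _ h1]
        have h2 : e.symm ⟨((e ⟨ξ, h⟩ : Ioi δ) : Λ), h1⟩ = ⟨ξ, h⟩ := e.symm_apply_apply _
        rw [h2, OrderIso.apply_symm_apply]
    have hza : ∀ j < δ, z.fn j = a.fn j := fun j hj => fbe j hj
    have hz : z ∈ Icc a b := by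
      constructor
      · by_contra hlt
        rw [not_le] at hlt
        have h1 := shift_lt c.fn e σ τ hza (fun _ _ => rfl) (T.lt_iff.mp hlt)
        rw [hshift, show shift c.fn e σ τ a.fn = c.fn from congrArg T.fn hΦa] at h1
        exact absurd (T.lt_iff.mpr h1) (not_lt.mpr w.2.1)
      · by_contra hlt
        rw [not_le] at hlt
        have h1 := shift_lt c.fn e σ τ (fun j hj => (hδ j hj).symm) hza (T.lt_iff.mp hlt)
        rw [hshift, show shift c.fn e σ τ b.fn = d.fn from congrArg T.fn hΦb] at h1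
        exact absurd (T.lt_iff.mpr h1) (not_lt.mpr w.2.2)
    refine ⟨⟨z, hz⟩, Subtype.ext ?_⟩
    show Φ ⟨z, hz⟩ = w.1
    apply T.ext
    rw [hΦ]
    exact hshift
  exact ⟨hF.orderIsoOfSurjective F hsurj⟩

end Pool.Agent.W913.HC
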