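import Pool.Agent.W913.HC.TChain

namespace Pool.Agent.W913.HC

open Cardinal Set Order

universe u

/-- `(A, B)` is a cut of the chain `T`: both parts are nonempty, `A` lies below `B`, `A` has no
largest element, `B` has no smallest element, and `T` is `A ∪ B` or `A ∪ {r} ∪ B` for a single
element `r` lying between `A` and `B`. -/
structure IsCut {T : Type u} [LinearOrder T] (A B : Set T) : Prop where
  left_nonempty : A.Nonempty
  right_nonempty : B.Nonempty
  lt : ∀ a ∈ A, ∀ b ∈ B, a < b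
  no_max : ∀ a ∈ A, ∃ a' ∈ A, a < a'
  no_min : ∀ b ∈ B, ∃ b' ∈ B, b' < b
  cover : A ∪ B = Set.univ ∨
    ∃ r : T, (∀ a ∈ A, a < r) ∧ (∀ b ∈ B, r < b) ∧ A ∪ {r} ∪ B = Set.univ

variable {Λ : Type u} [LinearOrder Λ] [WellFoundedLT Λ] {W : Λ → Set (K Λ)}

open Classical in
/-- follow `x` below `δ`, take the value `w` at `δ`, and `y` above -/
noncomputable def upd (x y : Λ → K Λ) (δ : Λ) (w : K Λ) : Λ → K Λ :=
  fun ξ => if ξ < δ then x ξ else if ξ = δ then w else y ξ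

theorem upd_lt (x y : Λ → K Λ) {δ : Λ} (w : K Λ) {ξ : Λ} (h : ξ < δ) : upd x y δ w ξ = x ξ := by
  simp only [upd, if_pos h]

theorem upd_at (x y : Λ → K Λ) (δ : Λ) (w : K Λ) : upd x y δ w δ = w := by
  simp only [upd, lt_irrefl, if_false, if_true]

theorem upd_gt (x y : Λ → K Λ) {δ : Λ} (w : K Λ) {ξ : Λ} (h : δ < ξ) : upd x y δ w ξ = y ξ := by
  simp only [upd, if_neg h.not_gt, if_neg h.ne']

/-- the cone of `T` of elements following `s` below `δ` -/
def TCone (W : Λ → Set (K Λ)) (δ : Λ) (s : Λ → K Λ) : Set (T W) := {x | ∀ j < δ, x.fn j = s j}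

/-- the standard elements of a cone -/
noncomputable def st (y : T W) (δ : Λ) (s : Λ → K Λ) (hs : ∀ ξ < δ, s ξ ∈ W ξ) (w : K Λ)
    (hw : w ∈ W δ) : T W :=
  T.mk (upd s y.fn δ w) (fun ξ => by
    rcases lt_trichotomy ξ δ with h | h | h
    · rw [upd_lt _ _ _ h]; exact hs ξ h
    · subst h; rw [upd_at]; exact hw
    · rw [upd_gt _ _ _ h]; exact y.mem ξ)

theorem st_mem (y : T W) (δ : Λ) (s : Λ → K Λ) (hs : ∀ ξ < δ, s ξ ∈ W ξ) (w : K Λ)
    (hw : w ∈ W δ) : st y δ s hs w hw ∈ TCone W δ s := fun j hj => by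
  rw [st, T.fn_mk, upd_lt _ _ _ hj]

theorem st_at (y : T W) (δ : Λ) (s : Λ → K Λ) (hs : ∀ ξ < δ, s ξ ∈ W ξ) (w : K Λ)
    (hw : w ∈ W δ) : (st y δ s hs w hw).fn δ = w := by
  rw [st, T.fn_mk, upd_at]

theorem cof_TCone (hW : Good W) (y : T W) (δ : Λ) (s : Λ → K Λ) (hs : ∀ ξ < δ, s ξ ∈ W ξ) :
    Order.cof (TCone W δ s) = Order.cof (W δ) := by
  refine cof_eq_of_maps ?_ (fun x => ⟨x.1.fn δ, x.1.mem δ⟩)
    (fun w => ⟨st y δ s hs w.1 w.2, st_mem _ _ _ _ _ _⟩) ?_
  · intro w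
    obtain ⟨v, hv, hlt⟩ := hW.nomax δ w.1 w.2
    exact ⟨⟨v, hv⟩, hlt⟩
  · intro x w hlt
    refine T.lt_iff.mpr ⟨δ, ?_, ?_⟩
    · intro j hj
      rw [x.2 j hj, st_mem y δ s hs w.1 w.2 j hj]
    · rw [st_at]
      exact hlt

variable [NoMaxOrder Λ] [Nonempty Λ]

theorem coinit_TCone (hW : Good W) (y : T W) (δ : Λ) (s : Λ → K Λ) (hs : ∀ ξ < δ, s ξ ∈ W ξ) :
    Order.cof (OrderDual (TCone W δ s)) = Order.cof Λ := by
  rw [← coinit_lower (hW.lower δ) (hW.ne δ)]
  refine cof_eq_of_maps ?_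
    (fun x => OrderDual.toDual ⟨(OrderDual.ofDual x).1.fn δ, (OrderDual.ofDual x).1.mem δ⟩)
    (fun w => OrderDual.toDual ⟨st y δ s hs (OrderDual.ofDual w).1 (OrderDual.ofDual w).2,
      st_mem _ _ _ _ _ _⟩) ?_
  · intro w
    obtain ⟨v, hv⟩ := exists_lt (OrderDual.ofDual w).1
    exact ⟨OrderDual.toDual ⟨v, hW.lower δ hv.le (OrderDual.ofDual w).2⟩, hv⟩
  · intro x w hlt
    show st y δ s hs (OrderDual.ofDual w).1 (OrderDual.ofDual w).2 < (OrderDual.ofDual x).1
    refine T.lt_iff.mpr ⟨δ, ?_, ?_⟩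
    · intro j hj
      rw [(OrderDual.ofDual x).2 j hj,
        st_mem y δ s hs (OrderDual.ofDual w).1 (OrderDual.ofDual w).2 j hj]
    · rw [st_at]
      exact hlt

theorem T.exists_gt_cone (hW : Good W) {δ : Λ} {s : Λ → K Λ} {x : T W} (hx : x ∈ TCone W δ s) :
    ∃ y ∈ TCone W δ s, x < y := by
  obtain ⟨v, hv, hlt⟩ := hW.nomax δ (x.fn δ) (x.mem δ)
  refine ⟨st x δ s (fun ξ h => by rw [← hx ξ h]; exact x.mem ξ) v hv, st_mem _ _ _ _ _ _, ?_⟩
  refine T.lt_iff.mpr ⟨δ, ?_, ?_⟩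
  · intro j hj
    rw [hx j hj, st_mem _ _ _ _ _ _ j hj]
  · rw [st_at]; exact hlt

theorem T.exists_lt_cone (hW : Good W) {δ : Λ} {s : Λ → K Λ} {x : T W} (hx : x ∈ TCone W δ s) :
    ∃ y ∈ TCone W δ s, y < x := by
  obtain ⟨v, hlt⟩ := exists_lt (x.fn δ)
  refine ⟨st x δ s (fun ξ h => by rw [← hx ξ h]; exact x.mem ξ) v
    (hW.lower δ hlt.le (x.mem δ)), st_mem _ _ _ _ _ _, ?_⟩
  refine T.lt_iff.mpr ⟨δ, ?_, ?_⟩
  · intro j hj
    rw [hx j hj, st_mem _ _ _ _ _ _ j hj]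
  · rw [st_at]; exact hlt

/-- The characters of the cuts of `T`: either one side is as long as `Λ`, or the cut sits at a
level `δ` and has character `(cof (W δ), cof (Iio δ))`. -/
theorem T.cut_character (hW : Good W) {A B : Set (T W)} (hc : IsCut A B) :
    Order.cof A = Order.cof Λ ∨ Order.cof (OrderDual B) = Order.cof Λ ∨
    ∃ δ, Order.cof A = Order.cof (W δ) ∧ Order.cof (OrderDual B) = Order.cof (Iio δ) := by
  classical
  obtain ⟨I, s, P⟩ := T.rep.exists_path hc.left_nonempty hc.lt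
  by_cases hI : I = Set.univ
  · rw [hI] at P
    exact Or.inl (T.rep.cof_full P hc.no_max)
  obtain ⟨δ, hδ1, hδ2⟩ := exists_min_mem Iᶜ (nonempty_compl.mpr hI)
  have hδ : ∀ ξ < δ, ξ ∈ I := fun ξ hξ => by
    by_contra h
    exact hδ2 ξ hξ h
  have hsW : ∀ ξ < δ, s ξ ∈ W ξ := by
    intro ξ hξ
    obtain ⟨a, ha, hag⟩ := P.wa ξ (hδ ξ hξ)
    rw [← hag ξ le_rfl]
    exact a.mem ξ
  obtain ⟨y, hyA⟩ := hc.left_nonempty
  -- every element is in A or B or is the middle point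
  have hcov : ∀ x, x ∈ A ∨ x ∈ B ∨ ((∀ a ∈ A, a < x) ∧ ∀ b ∈ B, x < b) := by
    intro x
    rcases hc.cover with h | ⟨r, hr1, hr2, h⟩
    · have : x ∈ A ∪ B := by rw [h]; trivial
      rcases this with h | h
      · exact Or.inl h
      · exact Or.inr (Or.inl h)
    · have : x ∈ A ∪ {r} ∪ B := by rw [h]; trivial
      rcases this with (h | h) | h
      · exact Or.inl h
      · rw [show x = r from h]
        exact Or.inr (Or.inr ⟨hr1, hr2⟩)
      · exact Or.inr (Or.inl h)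
  -- the middle point is unique
  have hmid : ∀ x x', ((∀ a ∈ A, a < x) ∧ ∀ b ∈ B, x < b) → ((∀ a ∈ A, a < x') ∧ ∀ b ∈ B, x' < b) →
      x < x' → False := by
    intro x x' hx hx' hlt
    rcases hc.cover with h | ⟨r, hr1, hr2, h⟩
    · have : x ∈ A ∪ B := by rw [h]; trivial
      rcases this with h | h
      · exact lt_irrefl _ (hx.1 _ h)
      · exact lt_irrefl _ (hx.2 _ h)
    · have h1 : x ∈ A ∪ {r} ∪ B := by rw [h]; trivial
      have h2 : x' ∈ A ∪ {r} ∪ B := by rw [h]; trivial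
      rcases h1 with (h1 | h1) | h1
      · exact lt_irrefl _ (hx.1 _ h1)
      · rcases h2 with (h2 | h2) | h2
        · exact lt_irrefl _ (hx'.1 _ h2)
        · rw [show x = r from h1, show x' = r from h2] at hlt
          exact lt_irrefl _ hlt
        · exact lt_irrefl _ (hx'.2 _ h2)
      · exact lt_irrefl _ (hx.2 _ h1)
  by_cases hDB : ∀ x ∈ TCone W δ s, x ∉ B
  · right; right
    have hDA : TCone W δ s ⊆ A := by
      intro x hx
      rcases hcov x with h | h | h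
      · exact h
      · exact absurd h (hDB x hx)
      · exfalso
        obtain ⟨z, hz, hlt⟩ := T.exists_gt_cone hW hx
        rcases hcov z with h' | h' | h'
        · exact absurd (h.1 z h') (not_lt.mpr hlt.le)
        · exact hDB z hz h'
        · exact hmid x z h h' hlt
    refine ⟨δ, ?_, T.rep.coinit_limit P hδ (fun b hb h => hDB b h hb)⟩
    rw [← cof_TCone hW y δ s hsW]
    refine (cof_subset_eq hDA ?_).symm
    intro a ha
    by_cases hac : a ∈ TCone W δ s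
    · exact ⟨a, hac, le_rfl⟩
    · obtain ⟨w, hw⟩ := hW.ne δ
      exact ⟨_, st_mem y δ s hsW w hw, (T.rep.below_cone P hδ ha hac
        (st_mem y δ s hsW w hw)).le⟩
  by_cases hDA : ∀ x ∈ TCone W δ s, x ∉ A
  · right; left
    have hDB' : TCone W δ s ⊆ B := by
      intro x hx
      rcases hcov x with h | h | h
      · exact absurd h (hDA x hx)
      · exact h
      · exfalso
        obtain ⟨z, hz, hlt⟩ := T.exists_lt_cone hW hx
        rcases hcov z with h' | h' | h'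
        · exact hDA z hz h'
        · exact absurd (h.2 z h') (not_lt.mpr hlt.le)
        · exact hmid z x h' h hlt
    rw [← coinit_TCone hW y δ s hsW]
    refine (coinit_subset_eq hDB' ?_).symm
    intro b hb
    by_cases hbc : b ∈ TCone W δ s
    · exact ⟨b, hbc, le_rfl⟩
    · obtain ⟨w, hw⟩ := hW.ne δ
      exact ⟨_, st_mem y δ s hsW w hw, (T.rep.above_cone P hδ hb hbc
        (st_mem y δ s hsW w hw)).le⟩
  push Not at hDA hDB
  obtain ⟨a, haD, haA⟩ := hDA
  obtain ⟨b, hbD, hbB⟩ := hDB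
  obtain ⟨ε, hε1, hε2⟩ := exists_next δ
  have hWε := hW.next δ ε hε1 hε2
  -- the values at level `δ`
  set U : Set (K Λ) := {w | ∃ a ∈ A, a ∈ TCone W δ s ∧ a.fn δ = w} with hU
  set V' : Set (K Λ) := {w | ∃ b ∈ B, b ∈ TCone W δ s ∧ b.fn δ = w} with hV
  have hUV : ∀ u ∈ U, ∀ v ∈ V', u < v := by
    rintro u ⟨a, ha, haD, rfl⟩ v ⟨b, hb, hbD, rfl⟩
    have hne : a.fn δ ≠ b.fn δ := by
      intro h
      refine P.sep δ hδ1 a ha b hb ?_
      intro η hη
      rcases hη.eq_or_lt with h1 | h1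
      · rw [h1]; exact h
      · exact (haD η h1).trans (hbD η h1).symm
    exact T.rep.first_lt (hc.lt a ha b hb) (fun j hj => (haD j hj).trans (hbD j hj).symm) hne
  -- subcones
  have hsub : ∀ w ∈ W δ, ∀ ξ < ε, Function.update s δ w ξ ∈ W ξ := by
    intro w hw ξ hξ
    rcases (hε2 ξ hξ).eq_or_lt with h | h
    · rw [h, Function.update_self]; exact hw
    · rw [Function.update_of_ne h.ne]; exact hsW ξ h
  have hsubcone : ∀ w, ∀ x : T W, x ∈ TCone W ε (Function.update s δ w) ↔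
      x ∈ TCone W δ s ∧ x.fn δ = w := by
    intro w x
    constructor
    · intro hx
      refine ⟨fun j hj => ?_, ?_⟩
      · rw [hx j (hj.trans hε1), Function.update_of_ne hj.ne]
      · rw [hx δ hε1, Function.update_self]
    · rintro ⟨hx, hx'⟩ j hj
      rcases (hε2 j hj).eq_or_lt with h | h
      · rw [h, hx', Function.update_self]
      · rw [hx j h, Function.update_of_ne h.ne]
  have hUVcov : ∀ w ∈ W δ, w ∈ U ∨ w ∈ V' := by
    intro w hw
    obtain ⟨k, hk⟩ := hW.ne ε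
    have h1 := st_mem y ε _ (hsub w hw) k hk
    set x := st y ε _ (hsub w hw) k hk
    obtain ⟨z, hz, hlt⟩ := T.exists_gt_cone hW h1
    have hx2 := (hsubcone w x).mp h1
    have hz2 := (hsubcone w z).mp hz
    rcases hcov x with h | h | h
    · exact Or.inl ⟨x, h, hx2.1, hx2.2⟩
    · exact Or.inr ⟨x, h, hx2.1, hx2.2⟩
    · rcases hcov z with h' | h' | h'
      · exact Or.inl ⟨z, h', hz2.1, hz2.2⟩
      · exact Or.inr ⟨z, h', hz2.1, hz2.2⟩
      · exact (hmid x z h h' hlt).elim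
  have hUW : ∀ u ∈ U, u ∈ W δ := by
    rintro u ⟨a, _, _, rfl⟩
    exact a.mem δ
  have hVW : ∀ v ∈ V', v ∈ W δ := by
    rintro u ⟨a, _, _, rfl⟩
    exact a.mem δ
  have hUne : (a.fn δ) ∈ U := ⟨a, haA, haD, rfl⟩
  have hVne : (b.fn δ) ∈ V' := ⟨b, hbB, hbD, rfl⟩
  -- elements of the cone
  have hinA : ∀ u ∈ U, TCone W ε (Function.update s δ u) ⊆ A := by
    intro u hu x hx
    have hnB : ∀ z ∈ TCone W ε (Function.update s δ u), z ∉ B := by
      intro z hz hzB
      have hz2 := (hsubcone u z).mp hz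
      exact lt_irrefl _ (hUV u hu u ⟨z, hzB, hz2.1, hz2.2⟩)
    rcases hcov x with h | h | h
    · exact h
    · exact absurd h (hnB x hx)
    · exfalso
      obtain ⟨z, hz, hlt⟩ := T.exists_gt_cone hW hx
      rcases hcov z with h' | h' | h'
      · exact absurd (h.1 z h') (not_lt.mpr hlt.le)
      · exact hnB z hz h'
      · exact hmid x z h h' hlt
  have hinB : ∀ v ∈ V', TCone W ε (Function.update s δ v) ⊆ B := by
    intro v hv x hx
    have hnA : ∀ z ∈ TCone W ε (Function.update s δ v), z ∉ A := by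
      intro z hz hzA
      have hz2 := (hsubcone v z).mp hz
      exact lt_irrefl _ (hUV v ⟨z, hzA, hz2.1, hz2.2⟩ v hv)
    rcases hcov x with h | h | h
    · exact absurd h (hnA x hx)
    · exact h
    · exfalso
      obtain ⟨z, hz, hlt⟩ := T.exists_lt_cone hW hx
      rcases hcov z with h' | h' | h'
      · exact hnA z hz h'
      · exact absurd (h.2 z h') (not_lt.mpr hlt.le)
      · exact hmid z x h' h hlt
  by_cases hUmax : ∃ u ∈ U, ∀ u' ∈ U, u' ≤ u
  · left
    obtain ⟨u, hu, hmax⟩ := hUmax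
    have h1 := cof_TCone hW y ε _ (hsub u (hUW u hu))
    rw [hWε] at h1
    have h2 : Order.cof (Set.univ : Set (K Λ)) = Order.cof (K Λ) :=
      Order.cof_eq_of_isCofinal IsCofinal.univ
    rw [h2, cof_K] at h1
    rw [← h1]
    refine (cof_subset_eq (hinA u hu) ?_).symm
    intro a' ha'
    obtain ⟨k, hk⟩ := hW.ne ε
    have hst := st_mem y ε _ (hsub u (hUW u hu)) k hk
    by_cases hac : a' ∈ TCone W δ s
    · rcases (hmax _ ⟨a', ha', hac, rfl⟩).eq_or_lt with h | h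
      · exact ⟨a', (hsubcone u a').mpr ⟨hac, h⟩, le_rfl⟩
      · refine ⟨_, hst, le_of_lt (T.lt_iff.mpr ⟨δ, ?_, ?_⟩)⟩
        · intro j hj
          rw [hac j hj, ((hsubcone u _).mp hst).1 j hj]
        · rw [((hsubcone u _).mp hst).2]; exact h
    · exact ⟨_, hst, (T.rep.below_cone P hδ ha' hac ((hsubcone u _).mp hst).1).le⟩
  by_cases hVmin : ∃ v ∈ V', ∀ v' ∈ V', v ≤ v'
  · right; left
    obtain ⟨v, hv, hmin⟩ := hVmin
    have h1 := coinit_TCone hW y ε _ (hsub v (hVW v hv))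
    rw [← h1]
    refine (coinit_subset_eq (hinB v hv) ?_).symm
    intro b' hb'
    obtain ⟨k, hk⟩ := hW.ne ε
    have hst := st_mem y ε _ (hsub v (hVW v hv)) k hk
    by_cases hbc : b' ∈ TCone W δ s
    · rcases (hmin _ ⟨b', hb', hbc, rfl⟩).eq_or_lt with h | h
      · exact ⟨b', (hsubcone v b').mpr ⟨hbc, h.symm⟩, le_rfl⟩
      · refine ⟨_, hst, le_of_lt (T.lt_iff.mpr ⟨δ, ?_, ?_⟩)⟩
        · intro j hj
          rw [hbc j hj, ((hsubcone v _).mp hst).1 j hj]
        · rw [((hsubcone v _).mp hst).2]; exact h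
    · exact ⟨_, hst, (T.rep.above_cone P hδ hb' hbc ((hsubcone v _).mp hst).1).le⟩
  -- a gap of `W δ`
  push Not at hUmax hVmin
  have hcofA : Order.cof A = Order.cof U := by
    rw [← cof_subset_eq (D := A ∩ TCone W δ s) inter_subset_left]
    · refine cof_eq_of_maps ?_ (fun x => ⟨x.1.fn δ, x.1, x.2.1, x.2.2, rfl⟩)
        (fun w => ⟨Classical.choose w.2, (Classical.choose_spec w.2).1,
          (Classical.choose_spec w.2).2.1⟩) ?_
      · intro u
        obtain ⟨u', hu', hlt⟩ := hUmax u.1 u.2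
        exact ⟨⟨u', hu'⟩, hlt⟩
      · intro x w hlt
        refine T.lt_iff.mpr ⟨δ, ?_, ?_⟩
        · intro j hj
          rw [x.2.2 j hj, (Classical.choose_spec w.2).2.1 j hj]
        · rw [(Classical.choose_spec w.2).2.2]
          exact hlt
    · intro a' ha'
      by_cases hac : a' ∈ TCone W δ s
      · exact ⟨a', ⟨ha', hac⟩, le_rfl⟩
      · exact ⟨a, ⟨haA, haD⟩, (T.rep.below_cone P hδ ha' hac haD).le⟩
  have hcofB : Order.cof (OrderDual B) = Order.cof (OrderDual V') := by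
    rw [← coinit_subset_eq (D := B ∩ TCone W δ s) inter_subset_left]
    · refine cof_eq_of_maps ?_ (fun x => OrderDual.toDual ⟨(OrderDual.ofDual x).1.fn δ,
          (OrderDual.ofDual x).1, (OrderDual.ofDual x).2.1, (OrderDual.ofDual x).2.2, rfl⟩)
        (fun w => OrderDual.toDual ⟨Classical.choose (OrderDual.ofDual w).2,
          (Classical.choose_spec (OrderDual.ofDual w).2).1,
          (Classical.choose_spec (OrderDual.ofDual w).2).2.1⟩) ?_
      · intro u
        obtain ⟨u', hu', hlt⟩ := hVmin (OrderDual.ofDual u).1 (OrderDual.ofDual u).2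
        exact ⟨OrderDual.toDual ⟨u', hu'⟩, hlt⟩
      · intro x w hlt
        show Classical.choose (OrderDual.ofDual w).2 < (OrderDual.ofDual x).1
        refine T.lt_iff.mpr ⟨δ, ?_, ?_⟩
        · intro j hj
          rw [(OrderDual.ofDual x).2.2 j hj, (Classical.choose_spec (OrderDual.ofDual w).2).2.1 j hj]
        · rw [(Classical.choose_spec (OrderDual.ofDual w).2).2.2]
          exact hlt
    · intro b' hb'
      by_cases hbc : b' ∈ TCone W δ s
      · exact ⟨b', ⟨hb', hbc⟩, le_rfl⟩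
      · exact ⟨b, ⟨hbB, hbD⟩, (T.rep.above_cone P hδ hb' hbc hbD).le⟩
  have hUlow : ∀ u ∈ U, ∀ x ≤ u, x ∈ U := by
    intro u hu x hx
    rcases hUVcov x (hW.lower δ hx (hUW u hu)) with h | h
    · exact h
    · exact absurd (hUV u hu x h) (not_lt.mpr hx)
  have hgap := K.gap (A := U) (B := Uᶜ) ⟨_, hUne⟩ (fun u hu x hx => by
      by_contra h
      exact hx (hUlow u hu x (not_lt.mp h))) (fun u hu => by
      obtain ⟨u', h1, h2⟩ := hUmax u hu
      exact ⟨u', h1, h2⟩) (fun x => em _)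
  rcases hgap with h | h
  · left
    rw [hcofA, h]
  · right; left
    rw [hcofB, ← h]
    refine coinit_subset_eq ?_ ?_
    · intro v hv hvU
      exact lt_irrefl _ (hUV v hvU v hv)
    · intro x hx
      by_cases hxW : x ∈ W δ
      · exact ⟨x, (hUVcov x hxW).resolve_left hx, le_rfl⟩
      · refine ⟨_, hVne, ?_⟩
        by_contra hlt
        exact hxW (hW.lower δ (not_le.mp hlt).le (hVW _ hVne))

/-- Every level which is not a successor realizes its character. -/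
theorem T.exists_cut (hW : Good W) (δ : Λ) (hδ : (Iio δ).Nonempty)
    (hlim : ∀ j < δ, ∃ k, j < k ∧ k < δ) :
    ∃ A B : Set (T W), IsCut A B ∧ Order.cof A = Order.cof (W δ) ∧
      Order.cof (OrderDual B) = Order.cof (Iio δ) := by
  classical
  choose y hy using hW.ne
  let x : T W := T.mk y hy
  let s : Λ → K Λ := x.fn
  have hs : ∀ ξ < δ, s ξ ∈ W ξ := fun ξ _ => x.mem ξ
  let A : Set (T W) := {z | z ∈ TCone W δ s ∨ ∃ i < δ, (∀ j < i, z.fn j = s j) ∧ z.fn i < s i}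
  let B : Set (T W) := {z | ∃ i < δ, (∀ j < i, z.fn j = s j) ∧ s i < z.fn i}
  have hup : ∀ i < δ, ∃ z : T W, (∀ j < i, z.fn j = s j) ∧ s i < z.fn i := by
    intro i hi
    obtain ⟨v, hv, hlt⟩ := hW.nomax i (s i) (x.mem i)
    exact ⟨st x i s (fun ξ _ => x.mem ξ) v hv, st_mem _ _ _ _ _ _, by rw [st_at]; exact hlt⟩
  have hAcone : ∀ z ∈ A, z ∉ TCone W δ s → ∀ z' ∈ TCone W δ s, z < z' := by
    rintro z (h | ⟨i, hi, h1, h2⟩) hz z' hz'
    · exact absurd h hz
    · refine T.lt_iff.mpr ⟨i, ?_, ?_⟩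
      · intro j hj
        rw [h1 j hj, hz' j (hj.trans hi)]
      · rw [hz' i hi]; exact h2
  have hAB : ∀ a ∈ A, ∀ b ∈ B, a < b := by
    rintro a (ha | ⟨i, hi, h1, h2⟩) b ⟨m, hm, g1, g2⟩
    · refine T.lt_iff.mpr ⟨m, ?_, ?_⟩
      · intro j hj
        rw [ha j (hj.trans hm), g1 j hj]
      · rw [ha m hm]; exact g2
    · rcases lt_trichotomy i m with h | h | h
      · refine T.lt_iff.mpr ⟨i, ?_, ?_⟩
        · intro j hj
          rw [h1 j hj, g1 j (hj.trans h)]
        · rw [g1 i h]; exact h2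
      · subst h
        refine T.lt_iff.mpr ⟨i, ?_, h2.trans g2⟩
        intro j hj
        rw [h1 j hj, g1 j hj]
      · refine T.lt_iff.mpr ⟨m, ?_, ?_⟩
        · intro j hj
          rw [h1 j (hj.trans h), g1 j hj]
        · rw [h1 m h]; exact g2
  have hnoB : ∀ b ∈ B, ¬ ∀ η < δ, b.fn η = s η := by
    rintro b ⟨i, hi, _, h2⟩ h
    rw [h i hi] at h2
    exact lt_irrefl _ h2
  have hcut : IsCut A B := by
    refine ⟨⟨x, Or.inl (fun j hj => rfl)⟩, ?_, hAB, ?_, ?_, Or.inl ?_⟩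
    · obtain ⟨i, hi⟩ := hδ
      obtain ⟨z, h1, h2⟩ := hup i hi
      exact ⟨z, i, hi, h1, h2⟩
    · intro a ha
      by_cases hac : a ∈ TCone W δ s
      · obtain ⟨z, hz, hlt⟩ := T.exists_gt_cone hW hac
        exact ⟨z, Or.inl hz, hlt⟩
      · exact ⟨x, Or.inl (fun j hj => rfl), hAcone a ha hac x (fun j hj => rfl)⟩
    · rintro b ⟨i, hi, h1, h2⟩
      obtain ⟨k, hik, hkδ⟩ := hlim i hi
      obtain ⟨z, g1, g2⟩ := hup k hkδ
      refine ⟨z, ⟨k, hkδ, g1, g2⟩, T.lt_iff.mpr ⟨i, ?_, ?_⟩⟩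
      · intro j hj
        rw [g1 j (hj.trans hik), h1 j hj]
      · rw [g1 i hik]; exact h2
    · ext z
      simp only [mem_union, mem_univ, iff_true]
      by_cases hz : z ∈ TCone W δ s
      · exact Or.inl (Or.inl hz)
      · obtain ⟨i, hi, h1, h2⟩ := exists_first_lt hz
        rcases lt_or_gt_of_ne h2 with h | h
        · exact Or.inl (Or.inr ⟨i, hi, h1, h⟩)
        · exact Or.inr ⟨i, hi, h1, h⟩
  refine ⟨A, B, hcut, ?_, ?_⟩
  · rw [← cof_TCone hW x δ s hs]
    refine (cof_subset_eq (fun z hz => Or.inl hz) ?_).symm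
    intro a ha
    by_cases hac : a ∈ TCone W δ s
    · exact ⟨a, hac, le_rfl⟩
    · exact ⟨x, fun j hj => rfl, (hAcone a ha hac x (fun j hj => rfl)).le⟩
  · have hρ : ∀ z : OrderDual B, ∃ i : Iio δ, (∀ j < i.1, (OrderDual.ofDual z).1.fn j = s j) ∧
        s i.1 < (OrderDual.ofDual z).1.fn i.1 := by
      intro z
      obtain ⟨i, hi, h1, h2⟩ := (OrderDual.ofDual z).2
      exact ⟨⟨i, hi⟩, h1, h2⟩
    choose ρ h1 h2 using hρ
    choose w w1 w2 using fun i : Iio δ => hup i.1 i.2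
    refine cof_eq_of_maps ?_ ρ (fun i => OrderDual.toDual ⟨w i, i.1, i.2, w1 i, w2 i⟩) ?_
    · intro i
      obtain ⟨k, hk1, hk2⟩ := hlim i.1 i.2
      exact ⟨⟨k, hk2⟩, hk1⟩
    · intro z i hi
      show w i < (OrderDual.ofDual z).1
      refine T.lt_iff.mpr ⟨(ρ z).1, ?_, ?_⟩
      · intro j hj
        rw [w1 i j (hj.trans hi), h1 z j hj]
      · rw [w1 i _ hi]
        exact h2 z

end Pool.Agent.W913.HC
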